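import Pool.Agent.R815.GR.Rep

/-!
# Additive functions on `gm F n` are determined by their polarised two-generator values
-/

set_option autoImplicit false

open scoped commutatorElement

namespace Pool.Agent.R815.GR

section

variable {K : Type} [CommRing K]

/-- a finitely supported linear function which vanishes on pure tensors is zero -/
theorem ext_tensor {n : ℕ} (L : ((Fin n → ℕ) → K) → K)
    (hadd : ∀ g h : (Fin n → ℕ) → K, L (fun J => g J + h J) = L g + L h)
    (hsmul : ∀ (a : K) (g : (Fin n → ℕ) → K), L (fun J => a * g J) = a * L g)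
    (N : ℕ) (hN : ∀ g : (Fin n → ℕ) → K, (∀ J, (∀ k, J k < N) → g J = 0) → L g = 0)
    (hp : ∀ u : Fin n → ℕ → K, L (fun J => ∏ k, u k (J k)) = 0) (g : (Fin n → ℕ) → K) :
    L g = 0 := by
  classical
  set S : Finset (Fin n → ℕ) := Fintype.piFinset (fun _ => Finset.range N) with hS
  have hsum : ∀ (S : Finset (Fin n → ℕ)) (F : (Fin n → ℕ) → (Fin n → ℕ) → K),
      (∀ J ∈ S, L (F J) = 0) → L (fun J' => ∑ J ∈ S, F J J') = 0 := by
    intro S F
    induction S using Finset.induction_on with
    | empty =>
      intro _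
      have := hsmul 0 (fun _ => 0)
      simpa using this
    | insert a s ha ih =>
      intro h
      have e : (fun J' => ∑ J ∈ insert a s, F J J') = fun J' => F a J' + ∑ J ∈ s, F J J' := by
        funext J'
        rw [Finset.sum_insert ha]
      rw [e, hadd, h a (Finset.mem_insert_self _ _), ih fun J hJ => h J (Finset.mem_insert_of_mem hJ),
        add_zero]
  set g' : (Fin n → ℕ) → K := fun J' => ∑ J ∈ S, g J * ∏ k, (if J k = J' k then (1 : K) else 0)
    with hg'
  have h1 : L g' = 0 := by
    refine hsum S (fun J J' => g J * ∏ k, (if J k = J' k then (1 : K) else 0)) fun J _ => ?_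
    have e1 := hsmul (g J) (fun J' => ∏ k, (if J k = J' k then (1 : K) else 0))
    have e2 := hp (fun k m => if J k = m then (1 : K) else 0)
    rw [e1, e2, mul_zero]
  have h2 : L (fun J => g J + (-1) * g' J) = 0 := by
    apply hN
    intro J hJ
    have hJS : J ∈ S := by
      rw [hS, Fintype.mem_piFinset]
      intro k
      exact Finset.mem_range.2 (hJ k)
    have : g' J = g J := by
      rw [hg']
      simp only
      rw [Finset.sum_eq_single J]
      · simp
      · intro J'' _ hne
        have : ∃ k, J'' k ≠ J k := by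
          by_contra hcon
          push Not at hcon
          exact hne (funext hcon)
        obtain ⟨k, hk⟩ := this
        rw [Finset.prod_eq_zero (Finset.mem_univ k), mul_zero]
        rw [if_neg hk]
      · intro h
        exact absurd hJS h
    rw [this]
    ring
  rw [hadd g (fun J => (-1) * g' J), hsmul, h1] at h2
  linear_combination h2

/-- polarised value, length two -/
def E2 (g : ℕ → ℕ → K) (i j : ℕ) : K :=
    g i j - g j i

/-- polarised value, length three -/
def E3 (g : ℕ → ℕ → ℕ → K) (i j k : ℕ) : K :=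
    g i j k + g i k j - g j i k - g j k i

/-- polarised value, length four, first kind -/
def E4a (g : ℕ → ℕ → ℕ → ℕ → K) (i j k l : ℕ) : K :=
    g i j k l + g i j l k + g i k j l + g i k l j + g i l j k + g i l k j - g j i k l - g j i l
    k - g j k i l - g j k l i - g j l i k - g j l k i

/-- polarised value, length four, second kind -/
def E4b (g : ℕ → ℕ → ℕ → ℕ → K) (i j k l : ℕ) : K :=
    g i l j k + g i l k j - g j l i k - g j l k i - g l i j k - g l i k j + g l j i k + g l j k
    i

/-- polarised value, length five -/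
def E5 (g : ℕ → ℕ → ℕ → ℕ → ℕ → K) (i j k l m : ℕ) : K :=
    g i m j k l + g i m j l k + g i m k j l + g i m k l j + g i m l j k + g i m l k j + g m i j
    k l + g m i j l k + g m i k j l + g m i k l j + g m i l j k + g m i l k j - g j m i k l - g
    j m i l k - g j m k i l - g j m k l i - g j m l i k - g j m l k i - g m j i k l - g m j i l
    k - g m j k i l - g m j k l i - g m j l i k - g m j l k i

theorem id3 (β : ℕ → ℕ → ℕ → K) (R1 : ∀ a b c, β a b c + β b a c = 0)
    (R2 : ∀ a b c, β a b c + β b c a + β c a b = 0) (i j k : ℕ) :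
    E3 β i j k = 3 * β i j k := by
  simp only [E3]
  linear_combination (-1) * R2 i j k - R1 i j k + R1 i k j

theorem id4 (β : ℕ → ℕ → ℕ → ℕ → K) (R1 : ∀ a b c d, β a b c d + β b a c d = 0)
    (R2 : ∀ a b c d, β a b c d + β b c a d + β c a b d = 0)
    (R3 : ∀ a b c d, β a b c d - β a b d c + β c d a b - β c d b a = 0) (i j k l : ℕ) :
    E4a β i j k l - E4b (fun a b c d => β a c b d - β a c d b) i j k l = 8 * β i j k l := by
  simp only [E4a, E4b]
  linear_combination
    (-4) * R1 i j k l + (1) * R1 i l j k + (1) * R1 i l k j + (-2) * R1 j k i l + (1) * R1 j l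
    i k + (-2) * R2 j l i k + (-1) * R1 j l k i + (2) * R2 k j i l + (2) * R3 l k i j

theorem id5 (β : ℕ → ℕ → ℕ → ℕ → ℕ → K) (R1 : ∀ a b c d e, β a b c d e + β b a c d e = 0)
    (R2 : ∀ a b c d e, β a b c d e + β b c a d e + β c a b d e = 0)
    (R3 : ∀ a b c d e, β a b c d e - β a b d c e = 0)
    (R4 : ∀ a b c d e, β a b c d e - β a b c e d - β d e c a b + β d e c b a = 0)
    (i j k l m : ℕ) :
    E5 (fun a b c d e => 3 * β a c d e b + β a c d b e) i j k l m = 40 * β i j k l m := by
  simp only [E5]
  linear_combination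
    (-11) * R1 i j k l m + (-20) * R3 i j k l m + (1) * R1 i j k m l + (-14) * R1 i j l k m +
    (-2) * R1 i j l m k + (3) * R4 i j l m k + (6) * R1 i k j l m + (-3) * R3 i k j l m + (1) *
    R1 i k j m l + (1) * R3 i k l m j + (-1) * R1 i k m j l + (1) * R4 i k m j l + (2) * R1 i k
    m l j + (-6) * R3 i l j k m + (-2) * R4 i l j k m + (-1) * R3 i l j m k + (-2) * R3 i l k m
    j + (3) * R4 i l k m j + (-1) * R4 i l m j k + (-3) * R1 i l m k j + (6) * R2 i m j k l +
    (-6) * R3 i m j k l + (-1) * R1 i m j l k + (1) * R2 i m j l k + (-1) * R1 i m k j l + (-3)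
    * R1 i m k l j + (5) * R4 i m k l j + (-3) * R1 i m l k j + (6) * R3 j i k m l + (11) * R2
    j i l k m + (1) * R3 j i l m k + (3) * R3 j k i l m + (-1) * R3 j k i m l + (-1) * R3 j k l
    m i + (-3) * R3 j l i k m + (-1) * R3 j l i m k + (-6) * R1 j l k i m + (-1) * R1 j l k m i
    + (-4) * R1 j l m k i + (-6) * R2 k i j l m + (-1) * R3 k i j m l + (-2) * R2 k m j i l +
    (2) * R3 k m j l i + (2) * R1 k m l j i + (3) * R2 l i m k j + (-11) * R3 l j i k m + (-4)
    * R3 l j k m i + (-8) * R1 l m i k j + (8) * R3 l m i k j + (3) * R1 l m j k i + (-6) * R3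
    l m j k i + (2) * R1 l m k j i + (-8) * R4 l m k j i + (1) * R3 m i j l k + (-6) * R3 m j i
    k l + (-1) * R3 m j i l k + (3) * R2 m j l k i + (-1) * R3 m k i j l + (-2) * R2 m k i l j
    + (-1) * R3 m k i l j + (3) * R3 m k j l i + (-1) * R3 m l i j k + (2) * R3 m l i k j

end

end Pool.Agent.R815.GR
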