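import Mathlib

/-!
# Additive functions on the terms of the lower central series
-/

set_option autoImplicit false

open scoped commutatorElement

namespace Pool.Agent.R815.GR

/-- `gm G n` is the `(n+1)`-st term of the lower central series -/
abbrev gm (G : Type) [Group G] (n : ℕ) : Subgroup G := (⊤ : Subgroup G).lowerCentralSeries n

section

variable {G : Type} [Group G]

theorem three (N H1 H2 H3 : Subgroup G) [N.Normal] (h1 : ⁅⁅H2, H3⁆, H1⁆ ≤ N)
    (h2 : ⁅⁅H3, H1⁆, H2⁆ ≤ N) : ⁅⁅H1, H2⁆, H3⁆ ≤ N := by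
  have key : ∀ X : Subgroup G, X ≤ N ↔ X.map (QuotientGroup.mk' N) = ⊥ := by
    intro X
    rw [Subgroup.map_eq_bot_iff, QuotientGroup.ker_mk']
  rw [key, Subgroup.map_commutator, Subgroup.map_commutator] at h1 h2 ⊢
  exact Subgroup.commutator_commutator_eq_bot_of_rotate h1 h2

theorem lcs_comm (j : ℕ) : ∀ i, ⁅gm G i, gm G j⁆ ≤ gm G (i + j + 1) := by
  induction j with
  | zero =>
    intro i
    rfl
  | succ j ih =>
    intro i
    rw [Subgroup.commutator_comm]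
    show ⁅(⊤ : Subgroup G).lowerCentralSeries (j + 1), _⁆ ≤ _
    rw [Subgroup.lowerCentralSeries_succ]
    apply three
    · rw [Subgroup.commutator_comm ⊤, ← Subgroup.lowerCentralSeries_succ]
      refine (ih (i + 1)).trans (le_of_eq ?_)
      congr 1
      omega
    · have h1 := Subgroup.commutator_mono (ih i) (le_refl (⊤ : Subgroup G))
      rw [← Subgroup.lowerCentralSeries_succ] at h1
      refine h1.trans (le_of_eq ?_)
      congr 1

theorem gm_anti {i j : ℕ} (h : i ≤ j) : gm G j ≤ gm G i :=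
  Subgroup.lowerCentralSeries_antitone _ h

theorem gm_comm {i j k : ℕ} {a b : G} (ha : a ∈ gm G i) (hb : b ∈ gm G j) (h : k ≤ i + j + 1) :
    ⁅a, b⁆ ∈ gm G k :=
  gm_anti h (lcs_comm j i (Subgroup.commutator_mem_commutator ha hb))

theorem gm_top (a : G) : a ∈ gm G 0 := Subgroup.mem_top a

theorem gm_succ (n : ℕ) : gm G (n + 1) = ⁅gm G n, (⊤ : Subgroup G)⁆ :=
  Subgroup.lowerCentralSeries_succ _ _

theorem gm_map {H : Type} [Group H] (f : G →* H) (n : ℕ) {u : G} (hu : u ∈ gm G n) :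
    f u ∈ gm H n := by
  induction n generalizing u with
  | zero => exact gm_top _
  | succ n ih =>
    have h : gm G (n + 1) ≤ (gm H (n + 1)).comap f := by
      rw [gm_succ, Subgroup.commutator_le]
      intro a ha b _
      show f ⁅a, b⁆ ∈ gm H (n + 1)
      rw [map_commutatorElement]
      exact gm_comm (ih ha) (gm_top _) (by omega)
    exact h hu

/-- additive on `gm G n`, zero on `gm G (n+1)` -/
structure GH {A : Type} [AddCommGroup A] (n : ℕ) (f : G → A) : Prop where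
  mul : ∀ u ∈ gm G n, ∀ v ∈ gm G n, f (u * v) = f u + f v
  kill : ∀ v ∈ gm G (n + 1), f v = 0

variable {A : Type} [AddCommGroup A]

namespace GH

variable {n : ℕ} {f : G → A}

theorem one (h : GH n f) : f 1 = 0 := h.kill 1 (one_mem _)

theorem inv (h : GH n f) {u : G} (hu : u ∈ gm G n) : f u⁻¹ = - f u := by
  have h1 := h.mul u hu u⁻¹ (inv_mem hu)
  rw [mul_inv_cancel, h.one] at h1
  exact (neg_eq_of_add_eq_zero_right h1.symm).symm

theorem mul_kill (h : GH n f) {u v : G} (hu : u ∈ gm G n) (hv : v ∈ gm G (n + 1)) :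
    f (u * v) = f u := by
  rw [h.mul u hu v (gm_anti (Nat.le_succ n) hv), h.kill v hv, add_zero]

theorem kill_mul (h : GH n f) {u v : G} (hu : u ∈ gm G n) (hv : v ∈ gm G (n + 1)) :
    f (v * u) = f u := by
  rw [h.mul v (gm_anti (Nat.le_succ n) hv) u hu, h.kill v hv, zero_add]

theorem conj (h : GH n f) {u : G} (hu : u ∈ gm G n) (g : G) : f (g * u * g⁻¹) = f u := by
  have e : g * u * g⁻¹ = ⁅g, u⁆ * u := by simp [commutatorElement_def]
  rw [e]
  exact h.kill_mul hu (gm_comm (gm_top g) hu (by omega))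

theorem conj_mem {n : ℕ} {u : G} (hu : u ∈ gm G n) (g : G) : g * u * g⁻¹ ∈ gm G n := by
  have : (gm G n).Normal := inferInstance
  exact this.conj_mem u hu g

theorem skew {n : ℕ} {f : G → A} (h : GH n f) {a b : G} (hab : ⁅a, b⁆ ∈ gm G n) :
    f ⁅b, a⁆ = - f ⁅a, b⁆ := by
  have e : ⁅b, a⁆ = ⁅a, b⁆⁻¹ := (commutatorElement_inv a b).symm
  rw [e]
  exact h.inv hab

/-- bracketing with a fixed element on the right -/
theorem brk_left {n m : ℕ} {f : G → A} (h : GH (n + m + 1) f) {x : G} (hx : x ∈ gm G m) :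
    GH n (fun g : G => f ⁅g, x⁆) where
  mul := by
    intro u hu v hv
    have e : ⁅u * v, x⁆ = ⁅u, ⁅v, x⁆⁆ * (⁅v, x⁆ * ⁅u, x⁆) := by
      simp only [commutatorElement_def]
      group
    have h1 : ⁅v, x⁆ ∈ gm G (n + m + 1) := gm_comm hv hx (by omega)
    have h2 : ⁅u, x⁆ ∈ gm G (n + m + 1) := gm_comm hu hx (by omega)
    show f ⁅u * v, x⁆ = f ⁅u, x⁆ + f ⁅v, x⁆
    rw [e, h.kill_mul (mul_mem h1 h2) (gm_comm hu h1 (by omega)), h.mul _ h1 _ h2, add_comm]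
  kill := fun v hv => h.kill _ (gm_comm hv hx (by omega))

/-- bracketing with a fixed element on the left -/
theorem brk_right {n m : ℕ} {f : G → A} (h : GH (n + m + 1) f) {g : G} (hg : g ∈ gm G n) :
    GH m (fun x : G => f ⁅g, x⁆) where
  mul := by
    intro u hu v hv
    have e : ⁅g, u * v⁆ = ⁅g, u⁆ * (u * ⁅g, v⁆ * u⁻¹) := by
      simp only [commutatorElement_def]
      group
    have h1 : ⁅g, u⁆ ∈ gm G (n + m + 1) := gm_comm hg hu (by omega)
    have h2 : ⁅g, v⁆ ∈ gm G (n + m + 1) := gm_comm hg hv (by omega)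
    show f ⁅g, u * v⁆ = f ⁅g, u⁆ + f ⁅g, v⁆
    rw [e, h.mul _ h1 _ (conj_mem h2 u), h.conj h2]
  kill := fun v hv => h.kill _ (gm_comm hg hv (by omega))

theorem congr_idx {n m : ℕ} {f : G → A} (h : GH n f) (e : n = m) : GH m f := e ▸ h

/-- the Jacobi identity -/
theorem jacobi {i j k n : ℕ} {f : G → A} (h : GH n f) (hn : n = i + j + k + 2) {a b c : G}
    (ha : a ∈ gm G i) (hb : b ∈ gm G j) (hc : c ∈ gm G k) :
    f ⁅⁅a, b⁆, c⁆ + f ⁅⁅b, c⁆, a⁆ + f ⁅⁅c, a⁆, b⁆ = 0 := by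
  subst hn
  -- Hall-Witt
  have hw : (b * ⁅⁅b⁻¹, a⁆, c⁆ * b⁻¹) * ((c * ⁅⁅c⁻¹, b⁆, a⁆ * c⁻¹) * (a * ⁅⁅a⁻¹, c⁆, b⁆ * a⁻¹)) = 1 := by
    simp only [commutatorElement_def]
    group
  have key : ∀ {p q r : ℕ} {x y z : G}, p + q + r = i + j + k → x ∈ gm G p → y ∈ gm G q →
      z ∈ gm G r → ⁅⁅x⁻¹, y⁆, z⁆ ∈ gm G (i + j + k + 2) ∧ f ⁅⁅x⁻¹, y⁆, z⁆ = f ⁅⁅y, x⁆, z⁆ := by
    intro p q r x y z hs hx hy hz
    have h1 : GH (p + q + 1) (fun u : G => f ⁅u, z⁆) :=
      (h.congr_idx (by omega : i + j + k + 2 = (p + q + 1) + r + 1)).brk_left hz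
    have h2 : GH p (fun u : G => f ⁅⁅u, y⁆, z⁆) := h1.brk_left hy
    refine ⟨gm_comm (gm_comm (inv_mem hx) hy le_rfl) hz (by omega), ?_⟩
    have e1 : f ⁅⁅x⁻¹, y⁆, z⁆ = - f ⁅⁅x, y⁆, z⁆ := h2.inv hx
    have e2 : f ⁅⁅y, x⁆, z⁆ = - f ⁅⁅x, y⁆, z⁆ := h1.skew (gm_comm hx hy le_rfl)
    rw [e1, e2]
  obtain ⟨m1, e1⟩ := key (by omega) hb ha hc
  obtain ⟨m2, e2⟩ := key (by omega) hc hb ha
  obtain ⟨m3, e3⟩ := key (by omega) ha hc hb
  have h0 := congrArg f hw
  rw [h.one, h.mul _ (conj_mem m1 b) _ (mul_mem (conj_mem m2 c) (conj_mem m3 a)),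
    h.mul _ (conj_mem m2 c) _ (conj_mem m3 a), h.conj m1, h.conj m2, h.conj m3, e1, e2, e3] at h0
  rw [← h0, add_assoc]

end GH

end

end Pool.Agent.R815.GR
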