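import Pool.Agent.R815.GR.Base

/-!
# Separating additive functions with values in `ZMod 7`
-/

set_option autoImplicit false

open scoped commutatorElement

namespace Pool.Agent.R815.GR

section

variable {G : Type} [Group G]

theorem GH.pow {A : Type} [AddCommGroup A] {n : ℕ} {f : G → A} (h : GH n f) {u : G}
    (hu : u ∈ gm G n) (k : ℕ) : f (u ^ k) = k • f u := by
  induction k with
  | zero => simp [h.one]
  | succ k ih => rw [pow_succ, h.mul _ (pow_mem hu k) _ hu, ih, add_smul, one_smul]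

/-- the section as a quotient group -/
abbrev Q (N : Subgroup G) (n : ℕ) : Type := ↥(gm G n) ⧸ (N.subgroupOf (gm G n))

theorem Q_comm (N : Subgroup G) [N.Normal] {n : ℕ} (h1 : gm G (n + 1) ≤ N) (a b : Q N n) :
    a * b = b * a := by
  induction a using QuotientGroup.induction_on with
  | H a =>
  induction b using QuotientGroup.induction_on with
  | H b =>
  rw [← QuotientGroup.mk_mul, ← QuotientGroup.mk_mul, QuotientGroup.eq, Subgroup.mem_subgroupOf]
  apply h1
  have e : (((a * b)⁻¹ * (b * a) : ↥(gm G n)) : G) = ⁅((b : G))⁻¹, ((a : G))⁻¹⁆ := by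
    simp only [commutatorElement_def]
    push_cast
    group
  rw [e]
  exact gm_comm (inv_mem b.2) (inv_mem a.2) (by omega)

theorem exists_fun (N : Subgroup G) [hN : N.Normal] {n : ℕ} (h1 : gm G (n + 2) ≤ N)
    (h7 : ∀ g ∈ gm G n, ∀ x : G, ⁅g ^ 7, x⁆ ∈ N) {w : G} (hw : w ∈ gm G (n + 1)) (hwN : w ∉ N) :
    ∃ β : G → ZMod 7, GH (n + 1) β ∧ (∀ v ∈ gm G (n + 1), v ∈ N → β v = 0) ∧ β w ≠ 0 := by
  classical
  let _i : CommGroup (Q N (n + 1)) :=
    { (inferInstance : Group (Q N (n + 1))) with mul_comm := Q_comm N h1 }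
  let q : G → Additive (Q N (n + 1)) := fun u =>
    if h : u ∈ gm G (n + 1) then Additive.ofMul (QuotientGroup.mk ⟨u, h⟩) else 0
  have hq : ∀ u (h : u ∈ gm G (n + 1)), q u = Additive.ofMul (QuotientGroup.mk ⟨u, h⟩) :=
    fun u h => dif_pos h
  have hqN : ∀ u ∈ gm G (n + 1), (q u = 0 ↔ u ∈ N) := by
    intro u hu
    rw [hq u hu]
    rw [show (0 : Additive (Q N (n + 1))) = Additive.ofMul (1 : Q N (n + 1)) from rfl]
    rw [Additive.ofMul.injective.eq_iff, QuotientGroup.eq_one_iff, Subgroup.mem_subgroupOf]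
  have hG : GH (n + 1) q := by
    refine ⟨?_, ?_⟩
    · intro u hu v hv
      rw [hq u hu, hq v hv, hq (u * v) (mul_mem hu hv)]
      rfl
    · intro v hv
      exact (hqN v (gm_anti (by omega) hv)).2 (h1 hv)
  have hall : ∀ u ∈ gm G (n + 1), 7 • q u = 0 := by
    intro u hu
    have hw' : u ∈ Subgroup.closure {g | ∃ g₁ ∈ gm G n, ∃ g₂ ∈ (⊤ : Subgroup G), ⁅g₁, g₂⁆ = g} := by
      rw [gm_succ, Subgroup.commutator_def] at hu
      exact hu
    have hcl : ∀ x, x ∈ Subgroup.closure {g | ∃ g₁ ∈ gm G n, ∃ g₂ ∈ (⊤ : Subgroup G), ⁅g₁, g₂⁆ = g} →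
        x ∈ gm G (n + 1) := by
      intro x hx
      rw [gm_succ, Subgroup.commutator_def]
      exact hx
    clear hu
    induction hw' using Subgroup.closure_induction with
    | mem x hx =>
      obtain ⟨g, hg, x, -, rfl⟩ := hx
      have e1 : GH n (fun u : G => q ⁅u, x⁆) := GH.brk_left (m := 0) hG (gm_top _)
      have e2 : q ⁅g ^ 7, x⁆ = 7 • q ⁅g, x⁆ := e1.pow hg 7
      rw [← e2]
      exact (hqN _ (gm_comm (pow_mem hg 7) (gm_top _) (by omega))).2 (h7 g hg x)
    | one => rw [hG.one, smul_zero]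
    | mul x y hx hy h1 h2 => rw [hG.mul _ (hcl x hx) _ (hcl y hy), smul_add, h1, h2, add_zero]
    | inv x hx h1 => rw [hG.inv (hcl x hx), smul_neg, h1, neg_zero]
  let _i : Module (ZMod 7) (Additive (Q N (n + 1))) := AddCommGroup.zmodModule (n := 7) (by
    intro x
    obtain ⟨⟨u, hu⟩, rfl⟩ := QuotientGroup.mk_surjective (Additive.toMul x)
    have := hall u hu
    rw [hq u hu] at this
    exact this)
  have hne : q w ≠ 0 := fun h => hwN ((hqN w hw).1 h)
  have : Fact (Nat.Prime 7) := ⟨by norm_num⟩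
  have hex : ∃ φ : Module.Dual (ZMod 7) (Additive (Q N (n + 1))), φ (q w) ≠ 0 := by
    by_contra hcon
    push Not at hcon
    exact hne ((Module.forall_dual_apply_eq_zero_iff (ZMod 7) (q w)).1 hcon)
  obtain ⟨φ, hφ⟩ := hex
  refine ⟨fun u => φ (q u), ⟨?_, ?_⟩, ?_, hφ⟩
  · intro u hu v hv
    show φ (q (u * v)) = φ (q u) + φ (q v)
    rw [hG.mul u hu v hv, map_add]
  · intro v hv
    show φ (q v) = 0
    rw [hG.kill v hv, map_zero]
  · intro v hv hvN
    show φ (q v) = 0
    rw [(hqN v hv).2 hvN, map_zero]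

end

end Pool.Agent.R815.GR
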