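import Pool.Agent.R815.GR.Rep

/-!
# Varieties of groups
-/

set_option autoImplicit false

open scoped commutatorElement

namespace Pool.Agent.R815.GR

/-- A variety of groups, given by its verbal subgroup in the absolutely free group `F` of countably
infinite rank (a fully invariant subgroup of `F`). -/
@[ext] structure Vty where
  /-- the verbal subgroup of `F` -/
  vs : Subgroup F
  fi : ∀ φ : F →* F, ∀ w ∈ vs, φ w ∈ vs

/-- `U ≤ V` for varieties: every law of `V` is a law of `U` -/
def Vty.Le (U V : Vty) : Prop := V.vs ≤ U.vs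

/-- the variety generated by a group: its laws are the words with all values trivial in `G` -/
def varOf (G : Type) [Group G] : Vty where
  vs :=
    { carrier := {w | ∀ φ : F →* G, φ w = 1}
      one_mem' := fun φ => map_one φ
      mul_mem' := by
        intro a b ha hb φ
        rw [map_mul, ha φ, hb φ, mul_one]
      inv_mem' := by
        intro a ha φ
        rw [map_inv, ha φ, inv_one] }
  fi := fun φ _ hw ψ => hw (ψ.comp φ)

theorem mem_varOf {G : Type} [Group G] {w : F} : w ∈ (varOf G).vs ↔ ∀ φ : F →* G, φ w = 1 :=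
  Iff.rfl

/-- the verbal subgroup `V(G)`: generated by the values in `G` of the laws of `V` -/
def verbal (V : Vty) (G : Type) [Group G] : Subgroup G :=
  Subgroup.closure {g | ∃ w ∈ V.vs, ∃ φ : F →* G, φ w = g}

instance verbal_normal (V : Vty) (G : Type) [Group G] : (verbal V G).Normal := by
  constructor
  intro n hn g
  have h : verbal V G ≤ (verbal V G).comap (MulAut.conj g).toMonoidHom := by
    rw [verbal, Subgroup.closure_le]
    rintro x ⟨w, hw, φ, rfl⟩
    exact Subgroup.subset_closure ⟨w, hw, ((MulAut.conj g).toMonoidHom).comp φ, rfl⟩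
  exact h hn

/-- the relatively free group `F_k(V)` of rank `k` -/
abbrev relFree (V : Vty) (k : ℕ) : Type := FreeGroup (Fin k) ⧸ verbal V (FreeGroup (Fin k))

/-- the trivial variety -/
def Triv : Vty := ⟨⊤, fun _ _ _ => Subgroup.mem_top _⟩

/-- the groups of nilpotency class at most `c` -/
def Nilp (c : ℕ) : Vty :=
  ⟨(⊤ : Subgroup F).lowerCentralSeries c, fun φ _ hw => gm_map φ c hw⟩

/-- the metabelian groups -/
def Metab : Vty :=
  ⟨derivedSeries F 2, fun φ w hw => map_derivedSeries_le_derivedSeries φ 2 ⟨w, hw, rfl⟩⟩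

/-- the groups of exponent dividing `n` -/
def Burn (n : ℕ) : Vty where
  vs := Subgroup.closure {g | ∃ w : F, w ^ n = g}
  fi := by
    intro φ
    have h : Subgroup.closure {g : F | ∃ w : F, w ^ n = g} ≤
        (Subgroup.closure {g : F | ∃ w : F, w ^ n = g}).comap φ := by
      rw [Subgroup.closure_le]
      rintro x ⟨w, rfl⟩
      exact Subgroup.subset_closure ⟨φ w, by rw [map_pow]⟩
    exact fun w hw => h hw

/-- the commutator variety `[U, V]` -/
def comm (U V : Vty) : Vty where
  vs := ⁅U.vs, V.vs⁆
  fi := by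
    intro φ
    have h : ⁅U.vs, V.vs⁆ ≤ (⁅U.vs, V.vs⁆).comap φ := by
      rw [Subgroup.commutator_le]
      intro a ha b hb
      show φ ⁅a, b⁆ ∈ ⁅U.vs, V.vs⁆
      rw [map_commutatorElement]
      exact Subgroup.commutator_mem_commutator (U.fi φ a ha) (V.fi φ b hb)
    exact fun w hw => h hw

/-- the intersection of two varieties -/
def meet (U V : Vty) : Vty where
  vs := U.vs ⊔ V.vs
  fi := by
    intro φ
    have h : U.vs ⊔ V.vs ≤ (U.vs ⊔ V.vs).comap φ :=
      sup_le (fun w hw => (le_sup_left : U.vs ≤ U.vs ⊔ V.vs) (U.fi φ w hw))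
        (fun w hw => (le_sup_right : V.vs ≤ U.vs ⊔ V.vs) (V.fi φ w hw))
    exact fun w hw => h hw

theorem vs_normal (V : Vty) : V.vs.Normal := by
  constructor
  intro n hn g
  exact V.fi (MulAut.conj g).toMonoidHom n hn

theorem le_varOf (V : Vty) (k : ℕ) : V.vs ≤ (varOf (relFree V k)).vs := by
  intro w hw φ
  -- lift `φ`
  choose g hg using fun i : ℕ => QuotientGroup.mk_surjective (s := verbal V (FreeGroup (Fin k)))
    (φ (FreeGroup.of i))
  have e : φ = (QuotientGroup.mk' (verbal V (FreeGroup (Fin k)))).comp (FreeGroup.lift g) := by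
    ext i
    simp [hg]
  rw [e]
  show QuotientGroup.mk' _ (FreeGroup.lift g w) = 1
  rw [QuotientGroup.mk'_apply, QuotientGroup.eq_one_iff]
  exact Subgroup.subset_closure ⟨w, hw, FreeGroup.lift g, rfl⟩

theorem varOf_iff (V : Vty) (k : ℕ) (w : F) : w ∈ (varOf (relFree V k)).vs ↔
    ∀ θ : F →* FreeGroup (Fin k), θ w ∈ verbal V (FreeGroup (Fin k)) := by
  constructor
  · intro h θ
    have := h ((QuotientGroup.mk' (verbal V (FreeGroup (Fin k)))).comp θ)
    rw [MonoidHom.comp_apply, QuotientGroup.mk'_apply, QuotientGroup.eq_one_iff] at this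
    exact this
  · intro h φ
    choose g hg using fun i : ℕ => QuotientGroup.mk_surjective (s := verbal V (FreeGroup (Fin k)))
      (φ (FreeGroup.of i))
    have e : φ = (QuotientGroup.mk' (verbal V (FreeGroup (Fin k)))).comp (FreeGroup.lift g) := by
      ext i
      simp [hg]
    rw [e]
    show QuotientGroup.mk' _ (FreeGroup.lift g w) = 1
    rw [QuotientGroup.mk'_apply, QuotientGroup.eq_one_iff]
    exact h _

end Pool.Agent.R815.GR
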