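import Pool.Agent.R815.GR.Two
import Pool.Agent.R815.GR.Var

/-!
# The centre-by-`U` variety, `U = B_7 ∧ A² ∧ N_4`
-/

set_option autoImplicit false

open scoped commutatorElement

namespace Pool.Agent.R815.GR

/-- exponent seven, metabelian, class at most four -/
def U0 : Vty := meet (meet (Burn 7) Metab) (Nilp 4)

/-- centre-by-`U0` -/
def V0 : Vty := comm U0 Triv

/-- the class-four part -/
def W0 : Vty := meet (Nilp 4) V0

theorem mem_V0 {r x : F} (hr : r ∈ U0.vs) : ⁅r, x⁆ ∈ V0.vs :=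
  Subgroup.commutator_mem_commutator hr (Subgroup.mem_top x)

theorem pow_U0 (g : F) : g ^ 7 ∈ U0.vs :=
  (le_sup_left : (meet (Burn 7) Metab).vs ≤ _) ((le_sup_left : (Burn 7).vs ≤ _)
    (Subgroup.subset_closure ⟨g, rfl⟩))

theorem der_U0 {g : F} (hg : g ∈ derivedSeries F 2) : g ∈ U0.vs :=
  (le_sup_left : (meet (Burn 7) Metab).vs ≤ _) ((le_sup_right : Metab.vs ≤ _) hg)

theorem gm_U0 {g : F} (hg : g ∈ gm F 4) : g ∈ U0.vs :=
  (le_sup_right : (Nilp 4).vs ≤ _) hg

theorem gm5_V0 : gm F 5 ≤ V0.vs := by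
  rw [gm_succ, Subgroup.commutator_le]
  intro a ha b _
  exact mem_V0 (gm_U0 ha)

/-- a subgroup containing all laws of `U0` -/
theorem U0_le {S : Subgroup F} (h1 : ∀ g : F, g ^ 7 ∈ S) (h2 : derivedSeries F 2 ≤ S)
    (h3 : gm F 4 ≤ S) : U0.vs ≤ S := by
  refine sup_le (sup_le ?_ h2) h3
  show Subgroup.closure {g : F | ∃ w : F, w ^ 7 = g} ≤ S
  rw [Subgroup.closure_le]
  rintro x ⟨w, rfl⟩
  exact h1 w

/-- laws of `V0` vanish under homomorphisms to groups with the right properties -/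
theorem V0_ker {H : Type} [Group H] (χ : F →* H) (h1 : ∀ g, χ g ^ 7 = 1)
    (h2 : ∀ g ∈ derivedSeries F 2, ∀ x, χ ⁅g, x⁆ = 1)
    (h3 : ∀ g ∈ gm F 4, ∀ x, χ ⁅g, x⁆ = 1) {w : F} (hw : w ∈ V0.vs) : χ w = 1 := by
  have hle : V0.vs ≤ χ.ker := by
    show ⁅U0.vs, (⊤ : Subgroup F)⁆ ≤ χ.ker
    rw [Subgroup.commutator_le]
    intro r hr x _
    let S : Subgroup F := (Subgroup.centralizer {χ x}).comap χ
    have hS : ∀ g : F, g ∈ S ↔ χ ⁅g, x⁆ = 1 := by
      intro g
      rw [Subgroup.mem_comap, Subgroup.mem_centralizer_singleton_iff, map_commutatorElement,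
        commutatorElement_eq_one_iff_mul_comm]
    have : r ∈ S := by
      refine U0_le ?_ ?_ ?_ hr
      · intro g
        rw [hS, map_commutatorElement, map_pow, h1, commutatorElement_one_left]
      · intro g hg
        exact (hS g).2 (h2 g hg x)
      · intro g hg
        exact (hS g).2 (h3 g hg x)
    exact (hS r).1 this
  exact hle hw

theorem verbal_psi : verbal V0 F2 ≤ psi.ker := by
  rw [verbal, Subgroup.closure_le]
  rintro x ⟨w, hw, φ, rfl⟩
  show psi (φ w) = 1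
  have key : ∀ g ∈ gm F2 4, ∀ x, psi ⁅g, x⁆ = 1 := by
    intro g hg x
    rw [map_commutatorElement]
    exact Lev_big (Lev_comm (map_Lev (hd := h67) psi_mem 4 g hg) (psi_mem x)) (by norm_num)
  refine V0_ker (psi.comp φ) ?_ ?_ ?_ hw
  · intro g
    exact Lev_pow (hd := h67) (psi_mem (φ g))
  · intro g hg x
    rw [MonoidHom.comp_apply, map_commutatorElement]
    exact key _ (der2_F2 (map_derivedSeries_le_derivedSeries φ 2 ⟨g, hg, rfl⟩)) _
  · intro g hg x
    rw [MonoidHom.comp_apply, map_commutatorElement]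
    exact key _ (gm_map φ 4 hg) _

theorem verbal_gm : verbal V0 F2 ≤ gm F2 1 := by
  rw [verbal, Subgroup.closure_le]
  rintro x ⟨w, hw, φ, rfl⟩
  have h : V0.vs ≤ gm F 1 := by
    show ⁅U0.vs, (⊤ : Subgroup F)⁆ ≤ gm F 1
    rw [Subgroup.commutator_le]
    intro a _ b _
    exact gm_comm (gm_top a) (gm_top b) le_rfl
  exact gm_map φ 1 (h hw)

theorem gen_V0 : varOf (relFree V0 2) = V0 := by
  have hN := vs_normal V0
  have hle := le_varOf V0 2
  have hpsi : ∀ w ∈ (varOf (relFree V0 2)).vs, ∀ θ : F →* F2, psi (θ w) = 1 :=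
    fun w hw θ => verbal_psi ((varOf_iff V0 2 w).1 hw θ)
  have step : ∀ n, (∀ β : F → ZMod 7, ∀ w ∈ (varOf (relFree V0 2)).vs, w ∈ gm F (n + 1) →
      GH (n + 1) β → (∀ v ∈ gm F (n + 1), v ∈ V0.vs → β v = 0) → β w = 0) →
      (varOf (relFree V0 2)).vs ≤ gm F (n + 1) ⊔ V0.vs →
      (varOf (relFree V0 2)).vs ≤ gm F (n + 2) ⊔ V0.vs := by
    intro n hstep hprev w hw
    obtain ⟨v, hv, r, hr, rfl⟩ := Subgroup.mem_sup_of_normal_right.1 (hprev hw)
    have hvl : v ∈ (varOf (relFree V0 2)).vs := by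
      have h1 := mul_mem hw (inv_mem (hle hr))
      rwa [mul_inv_cancel_right] at h1
    suffices hv' : v ∈ gm F (n + 2) ⊔ V0.vs from
      mul_mem hv' ((le_sup_right : V0.vs ≤ gm F (n + 2) ⊔ V0.vs) hr)
    by_contra hcon
    obtain ⟨β, hβ, hk, hne⟩ := exists_fun (gm F (n + 2) ⊔ V0.vs) le_sup_left (by
      intro g _ x
      exact (le_sup_right : V0.vs ≤ gm F (n + 2) ⊔ V0.vs) (mem_V0 (pow_U0 g))) hv hcon
    exact hne (hstep β v hvl hv hβ fun u hu huV => hk u hu
      ((le_sup_right : V0.vs ≤ gm F (n + 2) ⊔ V0.vs) huV))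
  have h1 : (varOf (relFree V0 2)).vs ≤ gm F 1 ⊔ V0.vs := fun w hw =>
    (le_sup_left : gm F 1 ≤ gm F 1 ⊔ V0.vs)
      (mem_gm1 fun θ => verbal_gm ((varOf_iff V0 2 w).1 hw θ))
  have h2 := step 0 (fun β w hw hg hβ _ => model2 (hpsi w hw) hβ hg) h1
  have h3 := step 1 (fun β w hw hg hβ _ => model3 (hpsi w hw) hβ hg) h2
  have h4 := step 2 (fun β w hw hg hβ _ => model4 (hpsi w hw) hβ hg) h3
  have h5 := step 3 (fun β w hw hg hβ hk => model5 (hpsi w hw) hβ hg (by
    intro a b c d e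
    have m : ⁅⁅a, b⁆, ⁅c, d⁆⁆ ∈ gm F 3 := gm_comm (g1 a b) (g1 c d) le_rfl
    refine hk _ (gm_comm m (gm_top e) le_rfl) (mem_V0 (der_U0 ?_))
    rw [derivedSeries_succ]
    have h1 : derivedSeries F 1 = gm F 1 := by
      rw [derivedSeries_succ, derivedSeries_zero, gm_succ]
      rfl
    rw [h1]
    exact Subgroup.commutator_mem_commutator (g1 a b) (g1 c d))) h4
  apply Vty.ext
  refine le_antisymm (h5.trans (sup_le gm5_V0 le_rfl)) hle

/-- the embedding of the free group of rank two -/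
def emb : F2 →* F := FreeGroup.lift ![xx 0, xx 1]
/-- a retraction -/
def ret : F →* F2 := FreeGroup.lift (fun i => if i = 0 then y0 else if i = 1 then y1 else 1)

theorem ret_emb (u : F2) : ret (emb u) = u := by
  have : ret.comp emb = MonoidHom.id F2 := by
    ext i
    fin_cases i
    · simp [ret, emb]
    · simp [ret, emb]
  exact DFunLike.congr_fun this u

/-- the metabelian law -/
def w0 : F := ⁅⁅xx 0, xx 1⁆, ⁅xx 2, xx 3⁆⁆

theorem w0_der : w0 ∈ derivedSeries F 2 := by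
  rw [derivedSeries_succ]
  have h1 : derivedSeries F 1 = gm F 1 := by
    rw [derivedSeries_succ, derivedSeries_zero, gm_succ]
    rfl
  rw [h1]
  exact Subgroup.commutator_mem_commutator (g1 _ _) (g1 _ _)

theorem w0_law : w0 ∈ (varOf (relFree W0 2)).vs := by
  rw [varOf_iff]
  intro θ
  have h1 : θ w0 ∈ gm F2 4 :=
    der2_F2 (map_derivedSeries_le_derivedSeries θ 2 ⟨w0, w0_der, rfl⟩)
  refine Subgroup.subset_closure ⟨emb (θ w0), ?_, ret, ret_emb _⟩
  exact (le_sup_left : (Nilp 4).vs ≤ _) (gm_map emb 4 h1)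

theorem h57 : 5 ≤ 7 := by norm_num

/-- elementary matrices -/
def AE (k : ℕ) : M 5 := fun i j => if (i : ℕ) = k ∧ (j : ℕ) = k + 1 then 1 else 0

theorem hAE (k : ℕ) : J 1 (AE k) := by
  intro i j h
  have : ¬ ((i : ℕ) = k ∧ (j : ℕ) = k + 1) := by omega
  exact if_neg this

/-- a representation by `5 × 5` matrices -/
def chi : F →* (M 5)ˣ := FreeGroup.lift (fun k => mkU h57 (AE k) (hAE k))

theorem chi_mem (g : F) : chi g ∈ Lev 5 h57 0 := by
  induction g using FreeGroup.induction_on with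
  | C1 => rw [map_one]; exact one_mem _
  | of k =>
    rw [chi, FreeGroup.lift_apply_of]
    exact mkU_mem _ (hAE k)
  | inv_of k h => rw [map_inv]; exact inv_mem h
  | mul u v h1 h2 => rw [map_mul]; exact mul_mem h1 h2

theorem chi_W0 {w : F} (hw : w ∈ W0.vs) : chi w = 1 := by
  have h4 : ∀ g ∈ gm F 4, chi g = 1 := fun g hg =>
    Lev_big (map_Lev (hd := h57) chi_mem 4 g hg) (by norm_num)
  have h3 : ∀ g ∈ gm F 3, ∀ x, chi ⁅g, x⁆ = 1 := fun g hg x =>
    h4 _ (gm_comm hg (gm_top x) le_rfl)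
  have hle : W0.vs ≤ chi.ker := by
    refine sup_le (fun g hg => h4 g hg) (fun g hg => ?_)
    exact V0_ker chi (fun g => Lev_pow (hd := h57) (chi_mem g))
      (fun g hg x => h3 g (der2_gen hg) x) (fun g hg x => h3 g (gm_anti (by omega) hg) x) hg
  exact hle hw

theorem chi_entry (k : ℕ) (i j : Fin 5) (h : i ≠ j) : (chi (xx k)).val i j = AE k i j := by
  rw [chi, FreeGroup.lift_apply_of]
  exact mkU_entry (hd := h57) (AE k) (hAE k) i j h

theorem chi_w0 : chi w0 ≠ 1 := by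
  intro h
  have h0 : (chi w0).val 0 4 = 0 := by
    rw [h, Units.val_one]
    exact Matrix.one_apply_ne (by decide)
  have m1 : ∀ a b : F, ⁅chi a, chi b⁆ ∈ Lev 5 h57 1 := fun a b =>
    Lev_anti (by omega) (Lev_comm (chi_mem a) (chi_mem b))
  rw [w0, map_commutatorElement, map_commutatorElement, map_commutatorElement,
    comm_entry (m1 _ _) (m1 _ _) 0 2 2 4 rfl rfl rfl,
    comm_entry (chi_mem _) (chi_mem _) 0 1 1 2 rfl rfl rfl,
    comm_entry (chi_mem _) (chi_mem _) 2 3 3 4 rfl rfl rfl,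
    comm_entry (chi_mem _) (chi_mem _) 0 1 1 2 rfl rfl rfl,
    comm_entry (chi_mem _) (chi_mem _) 2 3 3 4 rfl rfl rfl] at h0
  simp only [chi_entry _ _ _ (by decide : (0 : Fin 5) ≠ 1),
    chi_entry _ _ _ (by decide : (1 : Fin 5) ≠ 2), chi_entry _ _ _ (by decide : (2 : Fin 5) ≠ 3),
    chi_entry _ _ _ (by decide : (3 : Fin 5) ≠ 4)] at h0
  revert h0
  decide

theorem not_gen_W0 : varOf (relFree W0 2) ≠ W0 := by
  intro h
  have := w0_law
  rw [h] at this
  exact chi_w0 (chi_W0 this)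

theorem main :
    (Vty.Le U0 (Nilp 4) ∧ varOf (relFree (comm U0 Triv) 2) = comm U0 Triv ∧
      varOf (relFree (meet (Nilp 4) (comm U0 Triv)) 2) ≠ meet (Nilp 4) (comm U0 Triv)) ∧
    ¬ ∀ c k : ℕ, 1 ≤ c → 1 ≤ k → ∀ U : Vty, Vty.Le U (Nilp c) →
      varOf (relFree (comm U Triv) k) = comm U Triv →
      varOf (relFree (meet (Nilp c) (comm U Triv)) k) = meet (Nilp c) (comm U Triv) := by
  have hle : Vty.Le U0 (Nilp 4) := fun g hg => gm_U0 hg
  refine ⟨⟨hle, gen_V0, not_gen_W0⟩, fun h => ?_⟩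
  exact not_gen_W0 (h 4 2 (by norm_num) (by norm_num) U0 hle gen_V0)

end Pool.Agent.R815.GR
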