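import Pool.Agent.R815.GR.Base

/-!
# Unitriangular matrices over `ZMod 7`
-/

set_option autoImplicit false

open scoped commutatorElement

namespace Pool.Agent.R815.GR

/-- matrices over `ZMod 7` -/
abbrev M (d : ℕ) : Type := Matrix (Fin d) (Fin d) (ZMod 7)

section

variable {d : ℕ}

/-- the powers of the ideal of strictly upper triangular matrices -/
def J (k : ℕ) (A : M d) : Prop := ∀ i j : Fin d, (j : ℕ) < i + k → A i j = 0

theorem J.add {k : ℕ} {A B : M d} (hA : J k A) (hB : J k B) : J k (A + B) := by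
  intro i j h
  rw [Matrix.add_apply, hA i j h, hB i j h, add_zero]

theorem J.neg {k : ℕ} {A : M d} (hA : J k A) : J k (-A) := by
  intro i j h
  rw [Matrix.neg_apply, hA i j h, neg_zero]

theorem J.sub {k : ℕ} {A B : M d} (hA : J k A) (hB : J k B) : J k (A - B) := by
  rw [sub_eq_add_neg]
  exact hA.add hB.neg

theorem J.anti {k l : ℕ} (h : k ≤ l) {A : M d} (hA : J l A) : J k A :=
  fun i j hij => hA i j (by omega)

theorem J.mul {k l : ℕ} {A B : M d} (hA : J k A) (hB : J l B) : J (k + l) (A * B) := by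
  intro i j h
  rw [Matrix.mul_apply]
  refine Finset.sum_eq_zero fun m _ => ?_
  by_cases hm : (m : ℕ) < i + k
  · rw [hA i m hm, zero_mul]
  · rw [hB m j (by omega), mul_zero]

theorem J.mul_entry {k l : ℕ} {A B : M d} (hA : J k A) (hB : J l B) {i m j : Fin d}
    (hm : (m : ℕ) = i + k) (hj : (j : ℕ) = i + k + l) : (A * B) i j = A i m * B m j := by
  rw [Matrix.mul_apply]
  refine Finset.sum_eq_single m (fun m' _ hne => ?_) (fun h => absurd (Finset.mem_univ m) h)
  have hne' : (m' : ℕ) ≠ m := fun h => hne (Fin.ext h)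
  by_cases hm' : (m' : ℕ) < i + k
  · rw [hA i m' hm', zero_mul]
  · rw [hB m' j (by omega), mul_zero]

theorem J.big {k : ℕ} {A : M d} (hA : J k A) (h : d ≤ k) : A = 0 := by
  ext i j
  exact hA i j (by have := j.2; omega)

theorem J.pow {A : M d} (hA : J 1 A) (k : ℕ) : J k (A ^ k) := by
  induction k with
  | zero =>
    intro i j h
    rw [pow_zero, Matrix.one_apply_ne]
    intro e
    subst e
    omega
  | succ k ih =>
    rw [pow_succ]
    exact ih.mul hA

theorem pow_seven (hd : d ≤ 7) {g : M d} (hg : J 1 (g - 1)) : g ^ 7 = 1 := by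
  rcases Nat.eq_zero_or_pos d with rfl | hd0
  · exact Subsingleton.elim _ _
  have : Nonempty (Fin d) := ⟨⟨0, hd0⟩⟩
  have : Fact (Nat.Prime 7) := ⟨by norm_num⟩
  have e : g = 1 + (g - 1) := by abel
  rw [e, add_pow_char_of_commute (p := 7) (Commute.one_left _), (hg.pow 7).big hd, one_pow,
    add_zero]

theorem one_sub_J (k : ℕ) : J k ((1 : M d) - 1) := by
  intro i j _
  simp

/-- unitriangular matrices with `k` zero superdiagonals -/
def Lev (d : ℕ) (hd : d ≤ 7) (k : ℕ) : Subgroup (M d)ˣ where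
  carrier := {g | J (k + 1) ((g : M d) - 1)}
  one_mem' := by
    show J (k + 1) (((1 : (M d)ˣ) : M d) - 1)
    rw [Units.val_one]
    exact one_sub_J _
  mul_mem' := by
    intro g h hg hh
    show J (k + 1) (((g * h : (M d)ˣ) : M d) - 1)
    have e : ((g * h : (M d)ˣ) : M d) - 1 = ((g : M d) - 1) * ((h : M d) - 1) + (((g : M d) - 1) +
        ((h : M d) - 1)) := by
      rw [Units.val_mul]
      noncomm_ring
    rw [e]
    exact (J.anti (by omega) (J.mul hg hh)).add (J.add hg hh)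
  inv_mem' := by
    intro g hg
    show J (k + 1) (((g⁻¹ : (M d)ˣ) : M d) - 1)
    have hg' : J (k + 1) ((g : M d) - 1) := hg
    have h7 : g ^ 7 = 1 := by
      apply Units.ext
      rw [Units.val_pow_eq_pow_val, pow_seven hd (J.anti (by omega) hg'), Units.val_one]
    have e : g⁻¹ = g ^ 6 := by
      rw [inv_eq_iff_mul_eq_one, ← pow_succ']
      exact h7
    have hp : ∀ n : ℕ, J (k + 1) (((g ^ n : (M d)ˣ) : M d) - 1) := by
      intro n
      induction n with
      | zero =>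
        rw [pow_zero, Units.val_one]
        exact one_sub_J _
      | succ n ih =>
        have e : ((g ^ (n + 1) : (M d)ˣ) : M d) - 1 = (((g ^ n : (M d)ˣ) : M d) - 1) *
            ((g : M d) - 1) + ((((g ^ n : (M d)ˣ) : M d) - 1) + ((g : M d) - 1)) := by
          rw [pow_succ, Units.val_mul]
          noncomm_ring
        rw [e]
        exact (J.anti (by omega) (J.mul ih hg')).add (J.add ih hg')
    rw [e]
    exact hp 6

variable {hd : d ≤ 7}

theorem mem_Lev {k : ℕ} {g : (M d)ˣ} : g ∈ Lev d hd k ↔ J (k + 1) ((g : M d) - 1) := Iff.rfl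

theorem Lev_anti {k l : ℕ} (h : k ≤ l) {g : (M d)ˣ} (hg : g ∈ Lev d hd l) : g ∈ Lev d hd k :=
  J.anti (by omega) (mem_Lev.1 hg)

theorem Lev_pow {g : (M d)ˣ} (hg : g ∈ Lev d hd 0) : g ^ 7 = 1 := by
  apply Units.ext
  rw [Units.val_pow_eq_pow_val, pow_seven hd (mem_Lev.1 hg), Units.val_one]

theorem Lev_big {k : ℕ} {g : (M d)ˣ} (hg : g ∈ Lev d hd k) (h : d ≤ k + 1) : g = 1 := by
  apply Units.ext
  have := (mem_Lev.1 hg).big h
  rw [Units.val_one]
  exact sub_eq_zero.1 this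

theorem comm_eq (g h : (M d)ˣ) : ((⁅g, h⁆ : (M d)ˣ) : M d) - 1 =
    (((g : M d) - 1) * ((h : M d) - 1) - ((h : M d) - 1) * ((g : M d) - 1)) +
    (((g : M d) - 1) * ((h : M d) - 1) - ((h : M d) - 1) * ((g : M d) - 1)) *
      ((((h * g)⁻¹ : (M d)ˣ) : M d) - 1) := by
  have e1 : ⁅g, h⁆ = g * h * (h * g)⁻¹ := by
    simp only [commutatorElement_def, mul_inv_rev]
    group
  have e2 : ((g : M d) - 1) * ((h : M d) - 1) - ((h : M d) - 1) * ((g : M d) - 1) =
      ((g * h : (M d)ˣ) : M d) - ((h * g : (M d)ˣ) : M d) := by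
    rw [Units.val_mul, Units.val_mul]
    noncomm_ring
  have e3 : ((h * g : (M d)ˣ) : M d) * (((h * g)⁻¹ : (M d)ˣ) : M d) = 1 := by
    rw [← Units.val_mul, mul_inv_cancel, Units.val_one]
  rw [e2, e1, Units.val_mul]
  generalize ((g * h : (M d)ˣ) : M d) = P at *
  generalize ((h * g : (M d)ˣ) : M d) = R at *
  generalize (((h * g)⁻¹ : (M d)ˣ) : M d) = S at *
  have : (P - R) + (P - R) * (S - 1) = P * S - R * S := by noncomm_ring
  rw [this, e3]

theorem Lev_comm {a b : ℕ} {g h : (M d)ˣ} (hg : g ∈ Lev d hd a) (hh : h ∈ Lev d hd b) :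
    ⁅g, h⁆ ∈ Lev d hd (a + b + 1) := by
  rw [mem_Lev, comm_eq]
  have h1 := (mem_Lev.1 hg).mul (mem_Lev.1 hh)
  have h2 := (mem_Lev.1 hh).mul (mem_Lev.1 hg)
  have h3 : J (a + b + 1 + 1) (((g : M d) - 1) * ((h : M d) - 1) -
      ((h : M d) - 1) * ((g : M d) - 1)) := (h1.anti (by omega)).sub (h2.anti (by omega))
  have h4 : (h * g)⁻¹ ∈ Lev d hd 0 :=
    inv_mem (mul_mem (Lev_anti (Nat.zero_le _) hh) (Lev_anti (Nat.zero_le _) hg))
  exact h3.add ((h3.mul (mem_Lev.1 h4)).anti (by omega))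

theorem comm_entry {a b : ℕ} {g h : (M d)ˣ} (hg : g ∈ Lev d hd a) (hh : h ∈ Lev d hd b)
    (i m m' j : Fin d) (hm : (m : ℕ) = i + a + 1) (hm' : (m' : ℕ) = i + b + 1)
    (hj : (j : ℕ) = i + a + b + 2) :
    (⁅g, h⁆ : (M d)ˣ).val i j = g.val i m * h.val m j - h.val i m' * g.val m' j := by
  have h0 := congrFun (congrFun (comm_eq g h) i) j
  have h1 := (mem_Lev.1 hg).mul (mem_Lev.1 hh)
  have h2 := (mem_Lev.1 hh).mul (mem_Lev.1 hg)
  have h3 : J (a + b + 1 + 1) (((g : M d) - 1) * ((h : M d) - 1) -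
      ((h : M d) - 1) * ((g : M d) - 1)) := (h1.anti (by omega)).sub (h2.anti (by omega))
  have h4 : (h * g)⁻¹ ∈ Lev d hd 0 :=
    inv_mem (mul_mem (Lev_anti (Nat.zero_le _) hh) (Lev_anti (Nat.zero_le _) hg))
  have h5 := (h3.mul (mem_Lev.1 h4)) i j (by omega)
  rw [Matrix.add_apply, h5, add_zero, Matrix.sub_apply, Matrix.sub_apply,
    (mem_Lev.1 hg).mul_entry (mem_Lev.1 hh) (by omega) (by omega : (j : ℕ) = i + (a + 1) + (b + 1)),
    (mem_Lev.1 hh).mul_entry (mem_Lev.1 hg) (by omega) (by omega : (j : ℕ) = i + (b + 1) + (a + 1))]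
    at h0
  have n1 : ∀ (p q : Fin d), (p : ℕ) ≠ q → (1 : M d) p q = 0 := fun p q hpq =>
    Matrix.one_apply_ne (fun e => hpq (congrArg _ e))
  simp only [Matrix.sub_apply] at h0
  rw [n1 i j (by omega), n1 i m (by omega), n1 m j (by omega), n1 i m' (by omega),
    n1 m' j (by omega)] at h0
  simpa using h0

theorem mul_entry1 {k : ℕ} {g h : (M d)ˣ} (hg : g ∈ Lev d hd k) (hh : h ∈ Lev d hd k)
    (i j : Fin d) (hj : (j : ℕ) = i + k + 1) :
    (g * h : (M d)ˣ).val i j = g.val i j + h.val i j := by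
  have e : ((g * h : (M d)ˣ) : M d) - 1 = ((g : M d) - 1) * ((h : M d) - 1) + (((g : M d) - 1) +
      ((h : M d) - 1)) := by
    rw [Units.val_mul]
    noncomm_ring
  have h0 := congrFun (congrFun e i) j
  have n1 : (1 : M d) i j = 0 := Matrix.one_apply_ne (fun e => by rw [e] at hj; omega)
  have h5 := ((mem_Lev.1 hg).mul (mem_Lev.1 hh)) i j (by omega)
  rw [Matrix.add_apply, h5, zero_add] at h0
  simp only [Matrix.sub_apply, Matrix.add_apply, n1] at h0
  simpa using h0

theorem Lev_entry {k : ℕ} {g : (M d)ˣ} (hg : g ∈ Lev d hd k) (i j : Fin d)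
    (hj : (j : ℕ) < i + k + 1) (hij : (i : ℕ) ≠ j) : g.val i j = 0 := by
  have h0 := (mem_Lev.1 hg) i j (by omega)
  have n1 : (1 : M d) i j = 0 := Matrix.one_apply_ne (fun e => hij (congrArg _ e))
  rw [Matrix.sub_apply, n1, sub_zero] at h0
  exact h0

theorem pow_entry {g : (M d)ˣ} (hg : g ∈ Lev d hd 0) (i j : Fin d) (hj : (j : ℕ) = i + 1)
    (n : ℕ) : (g ^ n : (M d)ˣ).val i j = n * g.val i j := by
  induction n with
  | zero =>
    rw [pow_zero, Units.val_one, Matrix.one_apply_ne (fun e => by rw [e] at hj; omega)]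
    simp
  | succ n ih =>
    rw [pow_succ, mul_entry1 (hd := hd) (k := 0) (pow_mem hg n) hg i j (by omega), ih]
    push_cast
    ring

/-- a unit from a strictly upper triangular matrix -/
def mkU (hd : d ≤ 7) (A : M d) (hA : J 1 A) : (M d)ˣ where
  val := 1 + A
  inv := (1 + A) ^ 6
  val_inv := by
    rw [← pow_succ']
    exact pow_seven hd (by simpa using hA)
  inv_val := by
    rw [← pow_succ]
    exact pow_seven hd (by simpa using hA)

theorem mkU_mem (A : M d) (hA : J 1 A) : mkU hd A hA ∈ Lev d hd 0 := by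
  rw [mem_Lev]
  show J (0 + 1) ((1 + A) - 1)
  rw [add_sub_cancel_left]
  exact hA

theorem mkU_entry (A : M d) (hA : J 1 A) (i j : Fin d) (h : i ≠ j) :
    (mkU hd A hA).val i j = A i j := by
  show (1 + A) i j = A i j
  rw [Matrix.add_apply, Matrix.one_apply_ne h, zero_add]

variable {G : Type} [Group G]

theorem map_Lev {ψ : G →* (M d)ˣ} (hψ : ∀ g, ψ g ∈ Lev d hd 0) (n : ℕ) :
    ∀ u ∈ gm G n, ψ u ∈ Lev d hd n := by
  induction n with
  | zero => exact fun u _ => hψ u
  | succ n ih =>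
    have h : gm G (n + 1) ≤ (Lev d hd (n + 1)).comap ψ := by
      rw [gm_succ, Subgroup.commutator_le]
      intro a ha b _
      show ψ ⁅a, b⁆ ∈ Lev d hd (n + 1)
      rw [map_commutatorElement]
      have := Lev_comm (ih a ha) (hψ b)
      exact Lev_anti (by omega) this
    exact fun u hu => h hu

theorem entry_GH {ψ : G →* (M d)ˣ} (hψ : ∀ g, ψ g ∈ Lev d hd 0) (n : ℕ) (i j : Fin d)
    (hj : (j : ℕ) = i + n + 1) : GH n (fun u => (ψ u).val i j) where
  mul := by
    intro u hu v hv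
    show (ψ (u * v)).val i j = _
    rw [map_mul, mul_entry1 (hd := hd) (map_Lev hψ n u hu) (map_Lev hψ n v hv) i j hj]
  kill := fun v hv => Lev_entry (hd := hd) (map_Lev hψ (n + 1) v hv) i j (by omega) (by omega)

end

end Pool.Agent.R815.GR
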