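import Pool.Agent.R815.GR.Sep2
import Pool.Agent.R815.GR.Mat
import Pool.Agent.R815.GR.Dual

/-!
# The two-generator group of `6 × 6` unitriangular matrices
-/

set_option autoImplicit false

open scoped commutatorElement

namespace Pool.Agent.R815.GR

/-- the free group of rank two -/
abbrev F2 : Type := FreeGroup (Fin 2)

theorem h67 : 6 ≤ 7 := by norm_num

/-- first matrix -/
def AX : M 6 := fun i j => if (i = 0 ∧ j = 1) ∨ (i = 4 ∧ j = 5) then 1 else 0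
/-- second matrix -/
def AY : M 6 := fun i j =>
  if (i = 1 ∧ j = 2) ∨ (i = 2 ∧ j = 3) ∨ (i = 3 ∧ j = 4) then 1 else 0

theorem hAX : J 1 AX := by
  intro i j h
  have : ¬ ((i = 0 ∧ j = 1) ∨ (i = 4 ∧ j = 5)) := by
    rintro (⟨rfl, rfl⟩ | ⟨rfl, rfl⟩) <;> revert h <;> decide
  exact if_neg this

theorem hAY : J 1 AY := by
  intro i j h
  have : ¬ ((i = 1 ∧ j = 2) ∨ (i = 2 ∧ j = 3) ∨ (i = 3 ∧ j = 4)) := by
    rintro (⟨rfl, rfl⟩ | ⟨rfl, rfl⟩ | ⟨rfl, rfl⟩) <;> revert h <;> decide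
  exact if_neg this

/-- the representation of the free group of rank two -/
def psi : F2 →* (M 6)ˣ := FreeGroup.lift ![mkU h67 AX hAX, mkU h67 AY hAY]

theorem psi_mem (g : F2) : psi g ∈ Lev 6 h67 0 := by
  induction g using FreeGroup.induction_on with
  | C1 => rw [map_one]; exact one_mem _
  | of k =>
    rw [psi, FreeGroup.lift_apply_of]
    fin_cases k
    · exact mkU_mem _ hAX
    · exact mkU_mem _ hAY
  | inv_of k h => rw [map_inv]; exact inv_mem h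
  | mul u v h1 h2 => rw [map_mul]; exact mul_mem h1 h2

/-- entries -/
def vv (u : F2) (i j : Fin 6) : ZMod 7 := (psi u).val i j

theorem vv_GH (n : ℕ) (i j : Fin 6) (hj : (j : ℕ) = i + n + 1) : GH n (fun u => vv u i j) :=
  entry_GH (hd := h67) psi_mem n i j hj

theorem vc {n m : ℕ} {a b : F2} (ha : a ∈ gm F2 n) (hb : b ∈ gm F2 m) (i p q j : Fin 6)
    (hp : (p : ℕ) = i + n + 1) (hq : (q : ℕ) = i + m + 1) (hj : (j : ℕ) = i + n + m + 2) :
    vv ⁅a, b⁆ i j = vv a i p * vv b p j - vv b i q * vv a q j := by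
  have h := comm_entry (hd := h67) (map_Lev (hd := h67) psi_mem n a ha)
    (map_Lev (hd := h67) psi_mem m b hb) i p q j hp hq hj
  rw [← map_commutatorElement] at h
  exact h

/-- first coordinate -/
def sg (u : F2) : ZMod 7 := vv u 0 1
/-- second coordinate -/
def ta (u : F2) : ZMod 7 := vv u 1 2

/-- the two generators -/
abbrev y0 : F2 := FreeGroup.of 0
/-- the two generators -/
abbrev y1 : F2 := FreeGroup.of 1

theorem vv_y0 (i j : Fin 6) (h : i ≠ j) : vv y0 i j = AX i j := by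
  show (psi (FreeGroup.of 0)).val i j = _
  rw [psi, FreeGroup.lift_apply_of]
  exact mkU_entry (hd := h67) AX hAX i j h

theorem vv_y1 (i j : Fin 6) (h : i ≠ j) : vv y1 i j = AY i j := by
  show (psi (FreeGroup.of 1)).val i j = _
  rw [psi, FreeGroup.lift_apply_of]
  exact mkU_entry (hd := h67) AY hAY i j h

theorem GH.ext0 {f g : F2 → ZMod 7} (hf : GH 0 f) (hg : GH 0 g) (h0 : f y0 = g y0)
    (h1 : f y1 = g y1) (u : F2) : f u = g u := by
  induction u using FreeGroup.induction_on with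
  | C1 => rw [hf.one, hg.one]
  | of k =>
    fin_cases k
    · exact h0
    · exact h1
  | inv_of k h => rw [hf.inv (gm_top _), hg.inv (gm_top _), h]
  | mul u v h1 h2 => rw [hf.mul _ (gm_top _) _ (gm_top _), hg.mul _ (gm_top _) _ (gm_top _), h1, h2]

theorem v45 (u : F2) : vv u 4 5 = sg u := by
  refine GH.ext0 (vv_GH 0 4 5 rfl) (vv_GH 0 0 1 rfl) ?_ ?_ u
  · simp only [vv_y0 _ _ (by decide : (4 : Fin 6) ≠ 5), vv_y0 _ _ (by decide : (0 : Fin 6) ≠ 1)]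
    decide
  · simp only [vv_y1 _ _ (by decide : (4 : Fin 6) ≠ 5), vv_y1 _ _ (by decide : (0 : Fin 6) ≠ 1)]
    decide

theorem v23 (u : F2) : vv u 2 3 = ta u := by
  refine GH.ext0 (vv_GH 0 2 3 rfl) (vv_GH 0 1 2 rfl) ?_ ?_ u
  · simp only [vv_y0 _ _ (by decide : (2 : Fin 6) ≠ 3), vv_y0 _ _ (by decide : (1 : Fin 6) ≠ 2)]
    decide
  · simp only [vv_y1 _ _ (by decide : (2 : Fin 6) ≠ 3), vv_y1 _ _ (by decide : (1 : Fin 6) ≠ 2)]
    decide

theorem v34 (u : F2) : vv u 3 4 = ta u := by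
  refine GH.ext0 (vv_GH 0 3 4 rfl) (vv_GH 0 1 2 rfl) ?_ ?_ u
  · simp only [vv_y0 _ _ (by decide : (3 : Fin 6) ≠ 4), vv_y0 _ _ (by decide : (1 : Fin 6) ≠ 2)]
    decide
  · simp only [vv_y1 _ _ (by decide : (3 : Fin 6) ≠ 4), vv_y1 _ _ (by decide : (1 : Fin 6) ≠ 2)]
    decide

theorem v01 (u : F2) : vv u 0 1 = sg u := rfl
theorem v12 (u : F2) : vv u 1 2 = ta u := rfl

theorem sg_y0 : sg y0 = 1 := by
  rw [sg, vv_y0 _ _ (by decide)]
  decide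
theorem ta_y0 : ta y0 = 0 := by
  rw [ta, vv_y0 _ _ (by decide)]
  decide
theorem sg_y1 : sg y1 = 0 := by
  rw [sg, vv_y1 _ _ (by decide)]
  decide
theorem ta_y1 : ta y1 = 1 := by
  rw [ta, vv_y1 _ _ (by decide)]
  decide

theorem G1 (a b : F2) : ⁅a, b⁆ ∈ gm F2 1 := gm_comm (gm_top a) (gm_top b) le_rfl

/-- `(0,2)` entry -/
theorem c02 (x y : F2) : vv ⁅x, y⁆ 0 2 = sg x * ta y - sg y * ta x := by
  rw [vc (gm_top x) (gm_top y) 0 1 1 2 rfl rfl rfl, v01, v12, v01, v12]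

theorem lev1 : ∀ z ∈ gm F2 1, vv z 1 3 = 0 ∧ vv z 2 4 = 0 ∧ vv z 3 5 = - vv z 0 2 := by
  intro z hz
  have hw' : z ∈ Subgroup.closure {g | ∃ g₁ ∈ gm F2 0, ∃ g₂ ∈ (⊤ : Subgroup F2), ⁅g₁, g₂⁆ = g} := by
    rw [gm_succ, Subgroup.commutator_def] at hz
    exact hz
  have hcl : ∀ x, x ∈ Subgroup.closure {g | ∃ g₁ ∈ gm F2 0, ∃ g₂ ∈ (⊤ : Subgroup F2), ⁅g₁, g₂⁆ = g} →
      x ∈ gm F2 1 := by
    intro x hx
    rw [gm_succ, Subgroup.commutator_def]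
    exact hx
  have g13 : GH 1 (fun u => vv u 1 3) := vv_GH 1 1 3 rfl
  have g24 : GH 1 (fun u => vv u 2 4) := vv_GH 1 2 4 rfl
  have g35 : GH 1 (fun u => vv u 3 5) := vv_GH 1 3 5 rfl
  have g02 : GH 1 (fun u => vv u 0 2) := vv_GH 1 0 2 rfl
  clear hz
  induction hw' using Subgroup.closure_induction with
  | mem w hx =>
    obtain ⟨x, -, y, -, rfl⟩ := hx
    refine ⟨?_, ?_, ?_⟩
    · rw [vc (gm_top x) (gm_top y) 1 2 2 3 rfl rfl rfl, v12, v12, v23, v23]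
      ring
    · rw [vc (gm_top x) (gm_top y) 2 3 3 4 rfl rfl rfl, v23, v23, v34, v34]
      ring
    · rw [c02, vc (gm_top x) (gm_top y) 3 4 4 5 rfl rfl rfl, v34, v34, v45, v45]
      ring
  | one => exact ⟨g13.one, g24.one, by rw [g35.one, g02.one, neg_zero]⟩
  | mul x y hx hy h1 h2 =>
    refine ⟨?_, ?_, ?_⟩
    · have := g13.mul x (hcl x hx) y (hcl y hy)
      rw [this, h1.1, h2.1, add_zero]
    · have := g24.mul x (hcl x hx) y (hcl y hy)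
      rw [this, h1.2.1, h2.2.1, add_zero]
    · have := g35.mul x (hcl x hx) y (hcl y hy)
      rw [this, h1.2.2, h2.2.2]
      have := g02.mul x (hcl x hx) y (hcl y hy)
      rw [this]
      ring
  | inv x hx h1 =>
    refine ⟨?_, ?_, ?_⟩
    · have := g13.inv (hcl x hx)
      rw [this, h1.1, neg_zero]
    · have := g24.inv (hcl x hx)
      rw [this, h1.2.1, neg_zero]
    · have := g35.inv (hcl x hx)
      rw [this, h1.2.2]
      have := g02.inv (hcl x hx)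
      rw [this]

section

variable {z z' : F2} (hz : z ∈ gm F2 1) (hz' : z' ∈ gm F2 1) (x y u : F2)

include hz

theorem m03 : vv ⁅z, x⁆ 0 3 = vv z 0 2 * ta x := by
  rw [vc hz (gm_top x) 0 2 1 3 rfl rfl rfl, v23, (lev1 z hz).1]
  ring

theorem m14 : vv ⁅z, x⁆ 1 4 = 0 := by
  rw [vc hz (gm_top x) 1 3 2 4 rfl rfl rfl, (lev1 z hz).1, (lev1 z hz).2.1]
  ring

theorem m25 : vv ⁅z, x⁆ 2 5 = vv z 0 2 * ta x := by
  rw [vc hz (gm_top x) 2 4 3 5 rfl rfl rfl, v23, (lev1 z hz).2.1, (lev1 z hz).2.2]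
  ring

theorem m2 : ⁅z, x⁆ ∈ gm F2 2 := gm_comm hz (gm_top x) le_rfl
theorem m3 : ⁅⁅z, x⁆, y⁆ ∈ gm F2 3 := gm_comm (m2 hz x) (gm_top y) le_rfl
theorem m4 : ⁅⁅⁅z, x⁆, y⁆, u⁆ ∈ gm F2 4 := gm_comm (m3 hz x y) (gm_top u) le_rfl

theorem m04 : vv ⁅⁅z, x⁆, y⁆ 0 4 = vv z 0 2 * ta x * ta y := by
  rw [vc (m2 hz x) (gm_top y) 0 3 1 4 rfl rfl rfl, m03 hz, m14 hz, v34]
  ring

theorem m15 : vv ⁅⁅z, x⁆, y⁆ 1 5 = - (vv z 0 2 * ta x * ta y) := by
  rw [vc (m2 hz x) (gm_top y) 1 4 2 5 rfl rfl rfl, m14 hz, m25 hz, v12]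
  ring

theorem m05 : vv ⁅⁅⁅z, x⁆, y⁆, u⁆ 0 5 = 2 * (vv z 0 2 * ta x * ta y * sg u) := by
  rw [vc (m3 hz x y) (gm_top u) 0 4 1 5 rfl rfl rfl, m04 hz, m15 hz, v45, v01]
  ring

theorem m05' : vv ⁅⁅⁅x, z⁆, y⁆, u⁆ 0 5 = - (2 * (vv z 0 2 * ta x * ta y * sg u)) := by
  have h5 : GH 4 (fun u => vv u 0 5) := vv_GH 4 0 5 rfl
  have h3 : GH 2 (fun v : F2 => vv ⁅⁅v, y⁆, u⁆ 0 5) := (h5.brk0 u).brk0 y
  have := h3.skew (m2 hz x)
  rw [this, m05 hz]

include hz'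

theorem m05z : vv ⁅⁅z, z'⁆, x⁆ 0 5 = 0 := by
  rw [vc (gm_comm hz hz' le_rfl : ⁅z, z'⁆ ∈ gm F2 3) (gm_top x) 0 4 1 5 rfl rfl rfl,
    vc hz hz' 0 2 2 4 rfl rfl rfl, vc hz hz' 1 3 3 5 rfl rfl rfl, (lev1 z hz).1,
    (lev1 z hz).2.1, (lev1 z' hz').1, (lev1 z' hz').2.1]
  ring

theorem m05y : vv ⁅⁅z, x⁆, z'⁆ 0 5 = - (2 * (vv z 0 2 * ta x * vv z' 0 2)) := by
  rw [vc (m2 hz x) hz' 0 3 2 5 rfl rfl rfl, m03 hz, m25 hz, (lev1 z' hz').2.2]
  ring

end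

/-- the substitution with exponents `s`, `t` -/
def th (s t : ℕ → ZMod 7) : F →* F2 :=
  FreeGroup.lift (fun i => y0 ^ (s i).val * y1 ^ (t i).val)

theorem sg_GH : GH 0 sg := vv_GH 0 0 1 rfl
theorem ta_GH : GH 0 ta := vv_GH 0 1 2 rfl

theorem th_xx (s t : ℕ → ZMod 7) (i : ℕ) : th s t (xx i) = y0 ^ (s i).val * y1 ^ (t i).val := by
  rw [th, FreeGroup.lift_apply_of]

theorem sg_th (s t : ℕ → ZMod 7) (i : ℕ) : sg (th s t (xx i)) = s i := by
  rw [th_xx, sg_GH.mul _ (gm_top _) _ (gm_top _)]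
  have h1 := pow_entry (hd := h67) (psi_mem y0) 0 1 rfl (s i).val
  have h2 := pow_entry (hd := h67) (psi_mem y1) 0 1 rfl (t i).val
  rw [← map_pow] at h1 h2
  have e1 : sg (y0 ^ (s i).val) = ((s i).val : ZMod 7) * sg y0 := h1
  have e2 : sg (y1 ^ (t i).val) = ((t i).val : ZMod 7) * sg y1 := h2
  rw [e1, e2, sg_y0, sg_y1]
  simp only [ZMod.natCast_zmod_val]
  ring

theorem ta_th (s t : ℕ → ZMod 7) (i : ℕ) : ta (th s t (xx i)) = t i := by
  rw [th_xx, ta_GH.mul _ (gm_top _) _ (gm_top _)]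
  have h1 := pow_entry (hd := h67) (psi_mem y0) 1 2 rfl (s i).val
  have h2 := pow_entry (hd := h67) (psi_mem y1) 1 2 rfl (t i).val
  rw [← map_pow] at h1 h2
  have e1 : ta (y0 ^ (s i).val) = ((s i).val : ZMod 7) * ta y0 := h1
  have e2 : ta (y1 ^ (t i).val) = ((t i).val : ZMod 7) * ta y1 := h2
  rw [e1, e2, ta_y0, ta_y1]
  simp only [ZMod.natCast_zmod_val]
  ring

theorem comp_GH (θ : F →* F2) (n : ℕ) (i j : Fin 6) (hj : (j : ℕ) = i + n + 1) :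
    GH n (fun u => vv (θ u) i j) :=
  entry_GH (hd := h67) (ψ := psi.comp θ) (fun g => psi_mem (θ g)) n i j hj

section

variable {w : F} (h : ∀ θ : F →* F2, psi (θ w) = 1)

include h

theorem vw (θ : F →* F2) (i j : Fin 6) (hij : i ≠ j) : vv (θ w) i j = 0 := by
  rw [vv, h θ, Units.val_one, Matrix.one_apply_ne hij]

theorem model2 {β : F → ZMod 7} (hβ : GH 1 β) (hw : w ∈ gm F 1) : β w = 0 := by
  refine sep2 hβ hw fun s t => ⟨fun u => vv (th s t u) 0 2, comp_GH _ 1 0 2 rfl,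
    vw h _ 0 2 (by decide), fun i j => ?_⟩
  simp only [map_commutatorElement]
  rw [c02, sg_th, sg_th, ta_th, ta_th]

theorem model3 {β : F → ZMod 7} (hβ : GH 2 β) (hw : w ∈ gm F 2) : β w = 0 := by
  refine sep3 hβ hw fun s t => ⟨fun u => vv (th s t u) 0 3, comp_GH _ 2 0 3 rfl,
    vw h _ 0 3 (by decide), fun i j k => ?_⟩
  simp only [map_commutatorElement]
  rw [m03 (G1 _ _), c02, sg_th, sg_th, ta_th, ta_th, ta_th]

theorem model5 {β : F → ZMod 7} (hβ : GH 4 β) (hw : w ∈ gm F 4)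
    (hk : ∀ a b c d e : F, β ⁅⁅⁅a, b⁆, ⁅c, d⁆⁆, e⁆ = 0) : β w = 0 := by
  refine sep5 hβ hk hw fun s t => ⟨fun u => vv (th s t u) 0 5, comp_GH _ 4 0 5 rfl,
    vw h _ 0 5 (by decide), fun i j k l m => ?_⟩
  simp only [map_commutatorElement]
  rw [m05 (G1 _ _), c02]
  simp only [sg_th, ta_th]

/-- the twisted substitution -/
def th' (r s t : ℕ → ZMod 7) : F →* F2 :=
  FreeGroup.lift (fun i => ⁅y0, y1⁆ ^ (r i).val * th s t (xx i))

omit h in
theorem dl_xx (r s t : ℕ → ZMod 7) (i : ℕ) :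
    dl (th' r s t) (th s t) (xx i) = ⁅y0, y1⁆ ^ (r i).val := by
  rw [dl, th', FreeGroup.lift_apply_of]
  simp

omit h in
theorem dl_hyp (r s t : ℕ → ZMod 7) (x : F) : dl (th' r s t) (th s t) x ∈ gm F2 1 := by
  induction x using FreeGroup.induction_on with
  | C1 => simp [dl, one_mem]
  | of k =>
    rw [show (FreeGroup.of k : F) = xx k from rfl, dl_xx]
    exact pow_mem (G1 _ _) _
  | inv_of k h =>
    have e : dl (th' r s t) (th s t) (FreeGroup.of k)⁻¹ = (th' r s t (FreeGroup.of k))⁻¹ *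
        (dl (th' r s t) (th s t) (FreeGroup.of k))⁻¹ * (th' r s t (FreeGroup.of k))⁻¹⁻¹ := by
      simp only [dl, map_inv]
      group
    rw [e]
    exact GH.conj_mem (inv_mem h) _
  | mul u v h1 h2 =>
    rw [dl_mul]
    exact mul_mem (GH.conj_mem h2 _) h1

omit h in
theorem dl_val (r s t : ℕ → ZMod 7) (i : ℕ) :
    vv (dl (th' r s t) (th s t) (xx i)) 0 2 = r i := by
  rw [dl_xx]
  have h1 : GH 1 (fun u => vv u 0 2) := vv_GH 1 0 2 rfl
  have h2 := h1.pow (G1 y0 y1) (r i).val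
  rw [h2, c02, sg_y0, ta_y1, sg_y1, ta_y0, nsmul_eq_mul, ZMod.natCast_zmod_val]
  ring

theorem model4 {β : F → ZMod 7} (hβ : GH 3 β) (hw : w ∈ gm F 3) : β w = 0 := by
  refine sep4 hβ hw (fun s t => ⟨fun u => vv (th s t u) 0 4, comp_GH _ 3 0 4 rfl,
    vw h _ 0 4 (by decide), fun i j k l => ?_⟩) (fun r s t =>
    ⟨fun u => vv (dl (th' r s t) (th s t) u) 0 5,
      dl_GH (dl_hyp r s t) (vv_GH 4 0 5 rfl), ?_, fun i j k l => ?_⟩)
  · simp only [map_commutatorElement]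
    rw [m04 (G1 _ _), c02]
    simp only [sg_th, ta_th]
  · show (psi (dl (th' r s t) (th s t) w)).val 0 5 = 0
    rw [dl, map_mul, map_inv, h, h]
    simp
  · have h5 : GH 4 (fun u : F2 => vv u 0 5) := vv_GH 4 0 5 rfl
    have D := dl_hyp r s t
    set φ := th s t with hφ
    set φ' := th' r s t with hφ'
    have e4 := dl_leib D h5 (g2 (xx i) (xx j) (xx k)) (xx l)
    have h4 : GH 3 (fun u : F2 => vv ⁅u, φ (xx l)⁆ 0 5) := h5.brk0 _
    have e3 := dl_leib D h4 (g1 (xx i) (xx j)) (xx k)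
    have h3 : GH 2 (fun u : F2 => vv ⁅⁅u, φ (xx k)⁆, φ (xx l)⁆ 0 5) := h4.brk0 _
    have e2 := dl_leib D h3 (gm_top (xx i)) (xx j)
    show vv (dl φ' φ ⁅⁅⁅xx i, xx j⁆, xx k⁆, xx l⁆) 0 5 = _
    rw [e4, e3, e2]
    simp only [map_commutatorElement]
    rw [m05y (G1 _ _) (D _), m05z (G1 _ _) (D _), m05' (D _), m05 (D _), c02]
    simp only [hφ, sg_th, ta_th]
    rw [← hφ, dl_val, dl_val, dl_val]
    ring

end

end Pool.Agent.R815.GR
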