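import Pool.Agent.R815.GR.Base

/-!
# Left-normed commutators of the variables; derivations from substitutions
-/

set_option autoImplicit false

open scoped commutatorElement

namespace Pool.Agent.R815.GR

/-- the free group of countable rank -/
abbrev F : Type := FreeGroup ℕ

/-- index type of left-normed commutators of length `n + 1` -/
@[reducible] def T : ℕ → Type
  | 0 => ℕ
  | n + 1 => T n × ℕ

/-- left-normed commutators of the variables -/
def c : (n : ℕ) → T n → F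
  | 0, k => FreeGroup.of k
  | n + 1, I => ⁅c n I.1, (FreeGroup.of I.2 : F)⁆

theorem c_mem : ∀ (n : ℕ) (I : T n), c n I ∈ gm F n
  | 0, _ => gm_top _
  | n + 1, I => gm_comm (c_mem n _) (gm_top _) (by omega)

section

variable {K : Type} [CommRing K]

/-- a finite formula for the values at `w` of all additive functions on `gm F n` -/
def Rep (K : Type) [CommRing K] (n : ℕ) (w : F) : Prop :=
  ∃ (ι : Type) (_ : Fintype ι) (I : ι → T n) (ω : ι → K),
    ∀ f : F → K, GH n f → f w = ∑ j, ω j * f (c n (I j))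

theorem Rep.one (n : ℕ) : Rep K n 1 :=
  ⟨Empty, inferInstance, Empty.elim, Empty.elim, fun f hf => by simp [hf.one]⟩

theorem Rep.mul {n : ℕ} {u v : F} (hu : u ∈ gm F n) (hv : v ∈ gm F n) (h1 : Rep K n u)
    (h2 : Rep K n v) : Rep K n (u * v) := by
  obtain ⟨ι, _, I, ω, h1⟩ := h1
  obtain ⟨ι', _, I', ω', h2⟩ := h2
  refine ⟨ι ⊕ ι', inferInstance, Sum.elim I I', Sum.elim ω ω', fun f hf => ?_⟩
  rw [hf.mul u hu v hv, h1 f hf, h2 f hf, Fintype.sum_sum_type]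
  simp

theorem Rep.inv {n : ℕ} {u : F} (hu : u ∈ gm F n) (h1 : Rep K n u) : Rep K n u⁻¹ := by
  obtain ⟨ι, _, I, ω, h1⟩ := h1
  refine ⟨ι, inferInstance, I, fun j => - ω j, fun f hf => ?_⟩
  rw [hf.inv hu, h1 f hf]
  simp

theorem rep (n : ℕ) : ∀ w ∈ gm F n, Rep K n w := by
  have h0 : ∀ w : F, Rep K 0 w := by
    intro w
    induction w using FreeGroup.induction_on with
    | C1 => exact Rep.one 0
    | of k => exact ⟨Unit, inferInstance, fun _ => k, fun _ => 1, fun f hf => by simp [c]⟩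
    | inv_of k h => exact Rep.inv (gm_top _) h
    | mul u v h1 h2 => exact Rep.mul (gm_top _) (gm_top _) h1 h2
  induction n with
  | zero => exact fun w _ => h0 w
  | succ n ih =>
    intro w hw
    have hw' : w ∈ Subgroup.closure {g | ∃ g₁ ∈ gm F n, ∃ g₂ ∈ (⊤ : Subgroup F), ⁅g₁, g₂⁆ = g} := by
      rw [gm_succ, Subgroup.commutator_def] at hw
      exact hw
    have hcl : ∀ x, x ∈ Subgroup.closure {g | ∃ g₁ ∈ gm F n, ∃ g₂ ∈ (⊤ : Subgroup F), ⁅g₁, g₂⁆ = g} →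
        x ∈ gm F (n + 1) := by
      intro x hx
      rw [gm_succ, Subgroup.commutator_def]
      exact hx
    induction hw' using Subgroup.closure_induction with
    | mem x hx =>
      obtain ⟨g, hg, x, -, rfl⟩ := hx
      obtain ⟨ι, _, I, ω, h1⟩ := ih g hg
      obtain ⟨ι', _, J, ε, h2⟩ := h0 x
      refine ⟨ι × ι', inferInstance, fun p => (I p.1, J p.2), fun p => ω p.1 * ε p.2,
        fun f hf => ?_⟩
      have e1 : GH n (fun u : F => f ⁅u, x⁆) := GH.brk_left (m := 0) hf (gm_top _)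
      have e3 : f ⁅g, x⁆ = ∑ j, ω j * f ⁅c n (I j), x⁆ := h1 _ e1
      rw [e3, Fintype.sum_prod_type]
      refine Finset.sum_congr rfl fun i _ => ?_
      have e2 : GH 0 (fun x : F => f ⁅c n (I i), x⁆) :=
        GH.brk_right (n := n) (m := 0) hf (c_mem n _)
      have e4 : f ⁅c n (I i), x⁆ = ∑ j, ε j * f ⁅c n (I i), c 0 (J j)⁆ := h2 _ e2
      rw [e4, Finset.mul_sum]
      refine Finset.sum_congr rfl fun j _ => ?_
      rw [← mul_assoc]
      rfl
    | one => exact Rep.one _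
    | mul x y hx hy h1 h2 => exact Rep.mul (hcl x hx) (hcl y hy) (h1 (hcl x hx)) (h2 (hcl y hy))
    | inv x hx h1 => exact Rep.inv (hcl x hx) (h1 (hcl x hx))

end

section deriv

variable {G H : Type} [Group G] [Group H]

/-- the displacement between two homomorphisms -/
def dl (φ' φ : G →* H) (u : G) : H := φ' u * (φ u)⁻¹

theorem dl_mul (φ' φ : G →* H) (u v : G) :
    dl φ' φ (u * v) = (φ' u * dl φ' φ v * (φ' u)⁻¹) * dl φ' φ u := by
  simp only [dl, map_mul]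
  group

theorem dl_comm (φ' φ : G →* H) (u x : G) : dl φ' φ ⁅u, x⁆ =
    ⁅dl φ' φ u, ⁅φ u, dl φ' φ x * φ x⁆⁆ * (⁅φ u, dl φ' φ x⁆ * (⁅dl φ' φ x, ⁅φ u, φ x⁆⁆ *
      (⁅φ u, φ x⁆ * (⁅dl φ' φ u, dl φ' φ x⁆ * (dl φ' φ x * ⁅dl φ' φ u, φ x⁆ * (dl φ' φ x)⁻¹)) *
        ⁅φ u, φ x⁆⁻¹))) := by
  have e1 : φ' u = dl φ' φ u * φ u := by simp [dl]
  have e2 : φ' x = dl φ' φ x * φ x := by simp [dl]
  have e : dl φ' φ ⁅u, x⁆ = ⁅φ' u, φ' x⁆ * ⁅φ u, φ x⁆⁻¹ := by simp [dl, map_commutatorElement]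
  rw [e, e1, e2]
  generalize dl φ' φ u = P
  generalize dl φ' φ x = Q
  generalize φ u = u
  generalize φ x = x
  simp only [commutatorElement_def]
  group

variable {φ' φ : G →* H} (hφ : ∀ x, dl φ' φ x ∈ gm H 1)

include hφ

theorem dl_mem (n : ℕ) : ∀ u ∈ gm G n, dl φ' φ u ∈ gm H (n + 1) := by
  induction n with
  | zero => exact fun u _ => hφ u
  | succ n ih =>
    intro w hw
    have hw' : w ∈ Subgroup.closure {g | ∃ g₁ ∈ gm G n, ∃ g₂ ∈ (⊤ : Subgroup G), ⁅g₁, g₂⁆ = g} := by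
      rw [gm_succ, Subgroup.commutator_def] at hw
      exact hw
    clear hw
    induction hw' using Subgroup.closure_induction with
    | mem x hx =>
      obtain ⟨u, hu, x, -, rfl⟩ := hx
      rw [dl_comm]
      have hP := ih u hu
      have hQ := hφ x
      have hu' := gm_map φ n hu
      have m1 : ⁅φ u, dl φ' φ x * φ x⁆ ∈ gm H (n + 1) := gm_comm hu' (gm_top _) le_rfl
      have m2 : ⁅φ u, φ x⁆ ∈ gm H (n + 1) := gm_comm hu' (gm_top _) le_rfl
      refine mul_mem (gm_comm hP m1 (by omega)) (mul_mem (gm_comm hu' hQ (by omega))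
        (mul_mem (gm_comm hQ m2 (by omega)) (GH.conj_mem (mul_mem (gm_comm hP hQ (by omega))
        (GH.conj_mem (gm_comm hP (gm_top _) (by omega)) _)) _)))
    | one => simp [dl, one_mem]
    | mul x y hx hy h1 h2 =>
      rw [dl_mul]
      exact mul_mem (GH.conj_mem h2 _) h1
    | inv x hx h1 =>
      have e : dl φ' φ x⁻¹ = (φ' x)⁻¹ * (dl φ' φ x)⁻¹ * (φ' x)⁻¹⁻¹ := by
        simp only [dl, map_inv]
        group
      rw [e]
      exact GH.conj_mem (inv_mem h1) _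

variable {A : Type} [AddCommGroup A]

theorem dl_GH {n : ℕ} {f : H → A} (h : GH (n + 1) f) : GH n (fun u => f (dl φ' φ u)) where
  mul := by
    intro u hu v hv
    show f (dl φ' φ (u * v)) = f (dl φ' φ u) + f (dl φ' φ v)
    rw [dl_mul, h.mul _ (GH.conj_mem (dl_mem hφ n v hv) _) _ (dl_mem hφ n u hu),
      h.conj (dl_mem hφ n v hv), add_comm]
  kill := fun v hv => h.kill _ (dl_mem hφ (n + 1) v hv)

theorem dl_leib {n : ℕ} {f : H → A} (h : GH (n + 2) f) {u : G} (hu : u ∈ gm G n) (x : G) :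
    f (dl φ' φ ⁅u, x⁆) = f ⁅φ u, dl φ' φ x⁆ + f ⁅dl φ' φ u, φ x⁆ := by
  rw [dl_comm]
  have hP := dl_mem hφ n u hu
  have hQ := hφ x
  have hu' := gm_map φ n hu
  have m1 : ⁅φ u, dl φ' φ x * φ x⁆ ∈ gm H (n + 1) := gm_comm hu' (gm_top _) le_rfl
  have m2 : ⁅φ u, φ x⁆ ∈ gm H (n + 1) := gm_comm hu' (gm_top _) le_rfl
  have k1 : ⁅dl φ' φ u, ⁅φ u, dl φ' φ x * φ x⁆⁆ ∈ gm H (n + 2 + 1) := gm_comm hP m1 (by omega)
  have k2 : ⁅φ u, dl φ' φ x⁆ ∈ gm H (n + 2) := gm_comm hu' hQ (by omega)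
  have k3 : ⁅dl φ' φ x, ⁅φ u, φ x⁆⁆ ∈ gm H (n + 2 + 1) := gm_comm hQ m2 (by omega)
  have k4 : ⁅dl φ' φ u, dl φ' φ x⁆ ∈ gm H (n + 2 + 1) := gm_comm hP hQ (by omega)
  have k5 : ⁅dl φ' φ u, φ x⁆ ∈ gm H (n + 2) := gm_comm hP (gm_top _) (by omega)
  have k6 : dl φ' φ x * ⁅dl φ' φ u, φ x⁆ * (dl φ' φ x)⁻¹ ∈ gm H (n + 2) := GH.conj_mem k5 _
  have k7 : ⁅dl φ' φ u, dl φ' φ x⁆ * (dl φ' φ x * ⁅dl φ' φ u, φ x⁆ * (dl φ' φ x)⁻¹) ∈
      gm H (n + 2) := mul_mem (gm_anti (by omega) k4) k6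
  have k8 := GH.conj_mem k7 ⁅φ u, φ x⁆
  rw [h.kill_mul (mul_mem k2 (mul_mem (gm_anti (by omega) k3) k8)) k1,
    h.mul _ k2 _ (mul_mem (gm_anti (by omega) k3) k8), h.kill_mul k8 k3, h.conj k7,
    h.kill_mul k6 k4, h.conj k5]

end deriv

end Pool.Agent.R815.GR
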