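import Pool.Agent.R815.GR.Alg

/-!
# Separation: additive functions vanish at words whose two-generator values vanish
-/

set_option autoImplicit false

open scoped commutatorElement

namespace Pool.Agent.R815.GR

/-- the variables -/
abbrev xx (k : ℕ) : F := FreeGroup.of k

theorem exists_bound {ι : Type} [Fintype ι] (a : ι → ℕ) : ∃ N, ∀ j, a j < N :=
  ⟨Finset.univ.sup a + 1, fun j => Nat.lt_succ_of_le (Finset.le_sup (Finset.mem_univ j))⟩

theorem rep2 {K : Type} [CommRing K] {w : F} (hw : w ∈ gm F 1) :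
    ∃ (ι : Type) (_ : Fintype ι) (a b : ι → ℕ) (ω : ι → K),
      ∀ f : F → K, GH 1 f → f w = ∑ j, ω j * f ⁅xx (a j), xx (b j)⁆ := by
  obtain ⟨ι, h, I, ω, hr⟩ := rep (K := K) 1 w hw
  exact ⟨ι, h, fun j => (I j).1, fun j => (I j).2, ω, hr⟩

theorem rep3 {K : Type} [CommRing K] {w : F} (hw : w ∈ gm F 2) :
    ∃ (ι : Type) (_ : Fintype ι) (a b c : ι → ℕ) (ω : ι → K),
      ∀ f : F → K, GH 2 f → f w = ∑ j, ω j * f ⁅⁅xx (a j), xx (b j)⁆, xx (c j)⁆ := by
  obtain ⟨ι, h, I, ω, hr⟩ := rep (K := K) 2 w hw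
  exact ⟨ι, h, fun j => (I j).1.1, fun j => (I j).1.2, fun j => (I j).2, ω, hr⟩

theorem rep4 {K : Type} [CommRing K] {w : F} (hw : w ∈ gm F 3) :
    ∃ (ι : Type) (_ : Fintype ι) (a b c d : ι → ℕ) (ω : ι → K),
      ∀ f : F → K, GH 3 f → f w = ∑ j, ω j * f ⁅⁅⁅xx (a j), xx (b j)⁆, xx (c j)⁆, xx (d j)⁆ := by
  obtain ⟨ι, h, I, ω, hr⟩ := rep (K := K) 3 w hw
  exact ⟨ι, h, fun j => (I j).1.1.1, fun j => (I j).1.1.2, fun j => (I j).1.2, fun j => (I j).2, ω, hr⟩

theorem rep5 {K : Type} [CommRing K] {w : F} (hw : w ∈ gm F 4) :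
    ∃ (ι : Type) (_ : Fintype ι) (a b c d e : ι → ℕ) (ω : ι → K),
      ∀ f : F → K, GH 4 f → f w = ∑ j, ω j * f ⁅⁅⁅⁅xx (a j), xx (b j)⁆, xx (c j)⁆, xx (d j)⁆, xx (e j)⁆ := by
  obtain ⟨ι, h, I, ω, hr⟩ := rep (K := K) 4 w hw
  exact ⟨ι, h, fun j => (I j).1.1.1.1, fun j => (I j).1.1.1.2, fun j => (I j).1.1.2, fun j => (I j).1.2, fun j => (I j).2, ω, hr⟩

theorem van2 {K : Type} [CommRing K] {ι : Type} [Fintype ι] (a b : ι → ℕ) (ω : ι → K)
    (h : ∀ s t : ℕ → K, ∑ j, ω j * (s (a j) * t (b j) - s (b j) * t (a j)) = 0)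
    (G : ℕ → ℕ → K) :
    ∑ j, ω j * E2 G (a j) (b j) = 0 := by
  obtain ⟨N0, hN0⟩ := exists_bound a
  obtain ⟨N1, hN1⟩ := exists_bound b
  have b0 : ∀ j, a j < N0+N1 := fun j => by have := hN0 j; omega
  have b1 : ∀ j, b j < N0+N1 := fun j => by have := hN1 j; omega
  have key := ext_tensor (K := K) (n := 2)
    (fun g : (Fin 2 → ℕ) → K => ∑ j, ω j * E2 (fun p q => g ![p, q]) (a j) (b j)) ?_ ?_ (N0+N1) ?_ ?_
    (fun J => G (J 0) (J 1))
  · simpa using key
  · intro g g'
    simp only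
    rw [← Finset.sum_add_distrib]
    refine Finset.sum_congr rfl fun j _ => ?_
    simp only [E2]
    ring
  · intro x g
    simp only
    rw [Finset.mul_sum]
    refine Finset.sum_congr rfl fun j _ => ?_
    simp only [E2]
    ring
  · intro g hg
    have hb : ∀ p q, p < N0+N1 → q < N0+N1 → g ![p, q] = 0 := by
      intro p q hp hq
      apply hg
      intro k
      fin_cases k
      · exact hp
      · exact hq
    refine Finset.sum_eq_zero fun j _ => ?_
    simp [E2, hb, b0, b1]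
  · intro u
    have := h (u 0) (u 1)
    rw [← this]
    refine Finset.sum_congr rfl fun j _ => ?_
    simp [E2, Fin.prod_univ_two]

theorem van3 {K : Type} [CommRing K] {ι : Type} [Fintype ι] (a b c : ι → ℕ) (ω : ι → K)
    (h : ∀ s t : ℕ → K, ∑ j, ω j * ((s (a j) * t (b j) - s (b j) * t (a j)) * t (c j)) = 0)
    (G : ℕ → ℕ → ℕ → K) :
    ∑ j, ω j * E3 G (a j) (b j) (c j) = 0 := by
  obtain ⟨N0, hN0⟩ := exists_bound a
  obtain ⟨N1, hN1⟩ := exists_bound b
  obtain ⟨N2, hN2⟩ := exists_bound c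
  have b0 : ∀ j, a j < N0+N1+N2 := fun j => by have := hN0 j; omega
  have b1 : ∀ j, b j < N0+N1+N2 := fun j => by have := hN1 j; omega
  have b2 : ∀ j, c j < N0+N1+N2 := fun j => by have := hN2 j; omega
  have key := ext_tensor (K := K) (n := 3)
    (fun g : (Fin 3 → ℕ) → K => ∑ j, ω j * E3 (fun p q r => g ![p, q, r]) (a j) (b j) (c j)) ?_ ?_ (N0+N1+N2) ?_ ?_
    (fun J => G (J 0) (J 1) (J 2))
  · simpa using key
  · intro g g'
    simp only
    rw [← Finset.sum_add_distrib]
    refine Finset.sum_congr rfl fun j _ => ?_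
    simp only [E3]
    ring
  · intro x g
    simp only
    rw [Finset.mul_sum]
    refine Finset.sum_congr rfl fun j _ => ?_
    simp only [E3]
    ring
  · intro g hg
    have hb : ∀ p q r, p < N0+N1+N2 → q < N0+N1+N2 → r < N0+N1+N2 → g ![p, q, r] = 0 := by
      intro p q r hp hq hr
      apply hg
      intro k
      fin_cases k
      · exact hp
      · exact hq
      · exact hr
    refine Finset.sum_eq_zero fun j _ => ?_
    simp [E3, hb, b0, b1, b2]
  · intro u
    have h1 := h (u 0) (fun x => u 1 x + u 2 x)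
    have h2 := h (u 0) (u 1)
    have h3 := h (u 0) (u 2)
    have e := congrArg₂ (fun x y => x - y) h1 (congrArg₂ (fun x y => x + y) h2 h3)
    simp only [← Finset.sum_add_distrib, ← Finset.sum_sub_distrib, add_zero, sub_zero] at e
    rw [← e]
    refine Finset.sum_congr rfl fun j _ => ?_
    simp [E3, Fin.prod_univ_three]
    ring

theorem van4a {K : Type} [CommRing K] {ι : Type} [Fintype ι] (a b c d : ι → ℕ) (ω : ι → K)
    (h : ∀ s t : ℕ → K, ∑ j, ω j * ((s (a j) * t (b j) - s (b j) * t (a j)) * t (c j) * t (d j)) = 0)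
    (G : ℕ → ℕ → ℕ → ℕ → K) :
    ∑ j, ω j * E4a G (a j) (b j) (c j) (d j) = 0 := by
  obtain ⟨N0, hN0⟩ := exists_bound a
  obtain ⟨N1, hN1⟩ := exists_bound b
  obtain ⟨N2, hN2⟩ := exists_bound c
  obtain ⟨N3, hN3⟩ := exists_bound d
  have b0 : ∀ j, a j < N0+N1+N2+N3 := fun j => by have := hN0 j; omega
  have b1 : ∀ j, b j < N0+N1+N2+N3 := fun j => by have := hN1 j; omega
  have b2 : ∀ j, c j < N0+N1+N2+N3 := fun j => by have := hN2 j; omega
  have b3 : ∀ j, d j < N0+N1+N2+N3 := fun j => by have := hN3 j; omega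
  have key := ext_tensor (K := K) (n := 4)
    (fun g : (Fin 4 → ℕ) → K => ∑ j, ω j * E4a (fun p q r s => g ![p, q, r, s]) (a j) (b j) (c j) (d j)) ?_ ?_ (N0+N1+N2+N3) ?_ ?_
    (fun J => G (J 0) (J 1) (J 2) (J 3))
  · simpa using key
  · intro g g'
    simp only
    rw [← Finset.sum_add_distrib]
    refine Finset.sum_congr rfl fun j _ => ?_
    simp only [E4a]
    ring
  · intro x g
    simp only
    rw [Finset.mul_sum]
    refine Finset.sum_congr rfl fun j _ => ?_
    simp only [E4a]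
    ring
  · intro g hg
    have hb : ∀ p q r s, p < N0+N1+N2+N3 → q < N0+N1+N2+N3 → r < N0+N1+N2+N3 → s < N0+N1+N2+N3 → g ![p, q, r, s] = 0 := by
      intro p q r s hp hq hr hs
      apply hg
      intro k
      fin_cases k
      · exact hp
      · exact hq
      · exact hr
      · exact hs
    refine Finset.sum_eq_zero fun j _ => ?_
    simp [E4a, hb, b0, b1, b2, b3]
  · intro u
    have h1 := h (u 0) (fun x => u 1 x + u 2 x + u 3 x)
    have h2 := h (u 0) (fun x => u 1 x + u 2 x)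
    have h3 := h (u 0) (fun x => u 1 x + u 3 x)
    have h4 := h (u 0) (fun x => u 2 x + u 3 x)
    have h5 := h (u 0) (u 1)
    have h6 := h (u 0) (u 2)
    have h7 := h (u 0) (u 3)
    have e := congrArg₂ (fun x y => x + y) (congrArg₂ (fun x y => x - y) h1
      (congrArg₂ (fun x y => x + y) h2 (congrArg₂ (fun x y => x + y) h3 h4)))
      (congrArg₂ (fun x y => x + y) h5 (congrArg₂ (fun x y => x + y) h6 h7))
    simp only [← Finset.sum_add_distrib, ← Finset.sum_sub_distrib, add_zero, sub_zero] at e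
    rw [← e]
    refine Finset.sum_congr rfl fun j _ => ?_
    simp [E4a, Fin.prod_univ_four]
    ring

theorem van4b {K : Type} [CommRing K] {ι : Type} [Fintype ι] (a b c d : ι → ℕ) (ω : ι → K)
    (h : ∀ r s t : ℕ → K, ∑ j, ω j * ((r (a j) * t (b j) - r (b j) * t (a j)) * t (c j) * s (d j) - (s (a j) * t (b j) - s (b j) * t (a j)) * t (c j) * r (d j)) = 0)
    (G : ℕ → ℕ → ℕ → ℕ → K) :
    ∑ j, ω j * E4b G (a j) (b j) (c j) (d j) = 0 := by
  obtain ⟨N0, hN0⟩ := exists_bound a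
  obtain ⟨N1, hN1⟩ := exists_bound b
  obtain ⟨N2, hN2⟩ := exists_bound c
  obtain ⟨N3, hN3⟩ := exists_bound d
  have b0 : ∀ j, a j < N0+N1+N2+N3 := fun j => by have := hN0 j; omega
  have b1 : ∀ j, b j < N0+N1+N2+N3 := fun j => by have := hN1 j; omega
  have b2 : ∀ j, c j < N0+N1+N2+N3 := fun j => by have := hN2 j; omega
  have b3 : ∀ j, d j < N0+N1+N2+N3 := fun j => by have := hN3 j; omega
  have key := ext_tensor (K := K) (n := 4)
    (fun g : (Fin 4 → ℕ) → K => ∑ j, ω j * E4b (fun p q r s => g ![p, q, r, s]) (a j) (b j) (c j) (d j)) ?_ ?_ (N0+N1+N2+N3) ?_ ?_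
    (fun J => G (J 0) (J 1) (J 2) (J 3))
  · simpa using key
  · intro g g'
    simp only
    rw [← Finset.sum_add_distrib]
    refine Finset.sum_congr rfl fun j _ => ?_
    simp only [E4b]
    ring
  · intro x g
    simp only
    rw [Finset.mul_sum]
    refine Finset.sum_congr rfl fun j _ => ?_
    simp only [E4b]
    ring
  · intro g hg
    have hb : ∀ p q r s, p < N0+N1+N2+N3 → q < N0+N1+N2+N3 → r < N0+N1+N2+N3 → s < N0+N1+N2+N3 → g ![p, q, r, s] = 0 := by
      intro p q r s hp hq hr hs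
      apply hg
      intro k
      fin_cases k
      · exact hp
      · exact hq
      · exact hr
      · exact hs
    refine Finset.sum_eq_zero fun j _ => ?_
    simp [E4b, hb, b0, b1, b2, b3]
  · intro u
    have h1 := h (u 0) (u 1) (fun x => u 2 x + u 3 x)
    have h2 := h (u 0) (u 1) (u 2)
    have h3 := h (u 0) (u 1) (u 3)
    have e := congrArg₂ (fun x y => x - y) h1 (congrArg₂ (fun x y => x + y) h2 h3)
    simp only [← Finset.sum_add_distrib, ← Finset.sum_sub_distrib, add_zero, sub_zero] at e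
    rw [← e]
    refine Finset.sum_congr rfl fun j _ => ?_
    simp [E4b, Fin.prod_univ_four]
    ring

theorem van5 {K : Type} [CommRing K] {ι : Type} [Fintype ι] (a b c d e : ι → ℕ) (ω : ι → K)
    (h : ∀ s t : ℕ → K, ∑ j, ω j * ((s (a j) * t (b j) - s (b j) * t (a j)) * t (c j) * t (d j) * s (e j)) = 0)
    (G : ℕ → ℕ → ℕ → ℕ → ℕ → K) :
    ∑ j, ω j * E5 G (a j) (b j) (c j) (d j) (e j) = 0 := by
  obtain ⟨N0, hN0⟩ := exists_bound a
  obtain ⟨N1, hN1⟩ := exists_bound b
  obtain ⟨N2, hN2⟩ := exists_bound c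
  obtain ⟨N3, hN3⟩ := exists_bound d
  obtain ⟨N4, hN4⟩ := exists_bound e
  have b0 : ∀ j, a j < N0+N1+N2+N3+N4 := fun j => by have := hN0 j; omega
  have b1 : ∀ j, b j < N0+N1+N2+N3+N4 := fun j => by have := hN1 j; omega
  have b2 : ∀ j, c j < N0+N1+N2+N3+N4 := fun j => by have := hN2 j; omega
  have b3 : ∀ j, d j < N0+N1+N2+N3+N4 := fun j => by have := hN3 j; omega
  have b4 : ∀ j, e j < N0+N1+N2+N3+N4 := fun j => by have := hN4 j; omega
  have key := ext_tensor (K := K) (n := 5)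
    (fun g : (Fin 5 → ℕ) → K => ∑ j, ω j * E5 (fun p q r s t => g ![p, q, r, s, t]) (a j) (b j) (c j) (d j) (e j)) ?_ ?_ (N0+N1+N2+N3+N4) ?_ ?_
    (fun J => G (J 0) (J 1) (J 2) (J 3) (J 4))
  · simpa using key
  · intro g g'
    simp only
    rw [← Finset.sum_add_distrib]
    refine Finset.sum_congr rfl fun j _ => ?_
    simp only [E5]
    ring
  · intro x g
    simp only
    rw [Finset.mul_sum]
    refine Finset.sum_congr rfl fun j _ => ?_
    simp only [E5]
    ring
  · intro g hg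
    have hb : ∀ p q r s t, p < N0+N1+N2+N3+N4 → q < N0+N1+N2+N3+N4 → r < N0+N1+N2+N3+N4 → s < N0+N1+N2+N3+N4 → t < N0+N1+N2+N3+N4 → g ![p, q, r, s, t] = 0 := by
      intro p q r s t hp hq hr hs ht
      apply hg
      intro k
      fin_cases k
      · exact hp
      · exact hq
      · exact hr
      · exact hs
      · exact ht
    refine Finset.sum_eq_zero fun j _ => ?_
    simp [E5, hb, b0, b1, b2, b3, b4]
  · intro u
    have hs : ∀ s s' t : ℕ → K, ∑ j, ω j *
        ((s (a j) * t (b j) - s (b j) * t (a j)) * t (c j) * t (d j) * s' (e j) +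
        (s' (a j) * t (b j) - s' (b j) * t (a j)) * t (c j) * t (d j) * s (e j)) = 0 := by
      intro s s' t
      have h1 := h (fun x => s x + s' x) t
      have h2 := h s t
      have h3 := h s' t
      have e := congrArg₂ (fun x y => x - y) h1 (congrArg₂ (fun x y => x + y) h2 h3)
      simp only [← Finset.sum_add_distrib, ← Finset.sum_sub_distrib, add_zero, sub_zero] at e
      rw [← e]
      refine Finset.sum_congr rfl fun j _ => ?_
      ring
    have h1 := hs (u 0) (u 1) (fun x => u 2 x + u 3 x + u 4 x)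
    have h2 := hs (u 0) (u 1) (fun x => u 2 x + u 3 x)
    have h3 := hs (u 0) (u 1) (fun x => u 2 x + u 4 x)
    have h4 := hs (u 0) (u 1) (fun x => u 3 x + u 4 x)
    have h5 := hs (u 0) (u 1) (u 2)
    have h6 := hs (u 0) (u 1) (u 3)
    have h7 := hs (u 0) (u 1) (u 4)
    have e := congrArg₂ (fun x y => x + y) (congrArg₂ (fun x y => x - y) h1
      (congrArg₂ (fun x y => x + y) h2 (congrArg₂ (fun x y => x + y) h3 h4)))
      (congrArg₂ (fun x y => x + y) h5 (congrArg₂ (fun x y => x + y) h6 h7))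
    simp only [← Finset.sum_add_distrib, ← Finset.sum_sub_distrib, add_zero, sub_zero] at e
    rw [← e]
    refine Finset.sum_congr rfl fun j _ => ?_
    simp [E5, Fin.prod_univ_five]
    ring


end Pool.Agent.R815.GR
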