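import Pool.Agent.R815.GR.Sep

/-!
# Separation lemmas for lengths two to five
-/

set_option autoImplicit false

open scoped commutatorElement

namespace Pool.Agent.R815.GR

namespace GH

variable {G : Type} [Group G] {A : Type} [AddCommGroup A]

theorem sw {i j k n : ℕ} {f : G → A} (h : GH n f) (hn : n = i + j + k + 2) {a b c : G}
    (ha : a ∈ gm G i) (hb : b ∈ gm G j) (hc : c ∈ gm G k) :
    f ⁅⁅b, a⁆, c⁆ = - f ⁅⁅a, b⁆, c⁆ := by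
  have h1 : GH (i + j + 1) (fun u : G => f ⁅u, c⁆) :=
    (h.congr_idx (by omega : n = (i + j + 1) + k + 1)).brk_left hc
  exact h1.skew (gm_comm ha hb le_rfl)

theorem jac2 {i j k n : ℕ} {f : G → A} (h : GH n f) (hn : n = i + j + k + 2) {a b c : G}
    (ha : a ∈ gm G i) (hb : b ∈ gm G j) (hc : c ∈ gm G k) :
    f ⁅⁅a, b⁆, c⁆ - f ⁅⁅a, c⁆, b⁆ = f ⁅a, ⁅b, c⁆⁆ := by
  have h1 := h.jacobi hn ha hb hc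
  have h2 := h.sw (by omega : n = i + k + j + 2) ha hc hb
  have h3 : f ⁅⁅b, c⁆, a⁆ = - f ⁅a, ⁅b, c⁆⁆ :=
    h.skew (gm_comm ha (gm_comm hb hc le_rfl) (by omega))
  rw [h2, h3] at h1
  have : f ⁅⁅a, b⁆, c⁆ = f ⁅a, ⁅b, c⁆⁆ + f ⁅⁅a, c⁆, b⁆ := by
    have h4 : f ⁅⁅a, b⁆, c⁆ + -f ⁅a, ⁅b, c⁆⁆ + -f ⁅⁅a, c⁆, b⁆ = 0 := h1
    calc f ⁅⁅a, b⁆, c⁆ = (f ⁅⁅a, b⁆, c⁆ + -f ⁅a, ⁅b, c⁆⁆ + -f ⁅⁅a, c⁆, b⁆) +
          (f ⁅a, ⁅b, c⁆⁆ + f ⁅⁅a, c⁆, b⁆) := by abel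
      _ = _ := by rw [h4, zero_add]
  rw [this]
  abel

theorem brk0 {n : ℕ} {f : G → A} (h : GH (n + 1) f) (x : G) : GH n (fun g : G => f ⁅g, x⁆) :=
  GH.brk_left (m := 0) h (gm_top x)

end GH

section rels

variable {β : F → ZMod 7}

theorem r21 (h : GH 1 β) (a b : F) : β ⁅a, b⁆ + β ⁅b, a⁆ = 0 := by
  rw [h.skew (gm_comm (gm_top b) (gm_top a) le_rfl)]
  ring

theorem r31 (h : GH 2 β) (a b c : F) : β ⁅⁅a, b⁆, c⁆ + β ⁅⁅b, a⁆, c⁆ = 0 :=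
  r21 (h.brk0 c) a b

theorem r32 (h : GH 2 β) (a b c : F) :
    β ⁅⁅a, b⁆, c⁆ + β ⁅⁅b, c⁆, a⁆ + β ⁅⁅c, a⁆, b⁆ = 0 :=
  h.jacobi (by omega : 2 = 0 + 0 + 0 + 2) (gm_top _) (gm_top _) (gm_top _)

theorem r41 (h : GH 3 β) (a b c d : F) : β ⁅⁅⁅a, b⁆, c⁆, d⁆ + β ⁅⁅⁅b, a⁆, c⁆, d⁆ = 0 :=
  r31 (h.brk0 d) a b c

theorem r42 (h : GH 3 β) (a b c d : F) :
    β ⁅⁅⁅a, b⁆, c⁆, d⁆ + β ⁅⁅⁅b, c⁆, a⁆, d⁆ + β ⁅⁅⁅c, a⁆, b⁆, d⁆ = 0 :=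
  r32 (h.brk0 d) a b c

theorem g1 (a b : F) : ⁅a, b⁆ ∈ gm F 1 := gm_comm (gm_top a) (gm_top b) le_rfl

theorem g2 (a b c : F) : ⁅⁅a, b⁆, c⁆ ∈ gm F 2 := gm_comm (g1 a b) (gm_top c) le_rfl

theorem r43a (h : GH 3 β) (a b c d : F) :
    β ⁅⁅⁅a, b⁆, c⁆, d⁆ - β ⁅⁅⁅a, b⁆, d⁆, c⁆ = β ⁅⁅a, b⁆, ⁅c, d⁆⁆ :=
  h.jac2 (by omega : 3 = 1 + 0 + 0 + 2) (g1 _ _) (gm_top _) (gm_top _)

theorem r43 (h : GH 3 β) (a b c d : F) :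
    β ⁅⁅⁅a, b⁆, c⁆, d⁆ - β ⁅⁅⁅a, b⁆, d⁆, c⁆ + β ⁅⁅⁅c, d⁆, a⁆, b⁆ - β ⁅⁅⁅c, d⁆, b⁆, a⁆ = 0 := by
  have h1 := r43a h a b c d
  have h2 := r43a h c d a b
  have h3 : β ⁅⁅c, d⁆, ⁅a, b⁆⁆ = - β ⁅⁅a, b⁆, ⁅c, d⁆⁆ :=
    h.skew (gm_comm (g1 _ _) (g1 _ _) (by omega))
  linear_combination h1 + h2 + h3

variable (hk : ∀ a b c d e : F, β ⁅⁅⁅a, b⁆, ⁅c, d⁆⁆, e⁆ = 0)

theorem r51 (h : GH 4 β) (a b c d e : F) :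
    β ⁅⁅⁅⁅a, b⁆, c⁆, d⁆, e⁆ + β ⁅⁅⁅⁅b, a⁆, c⁆, d⁆, e⁆ = 0 :=
  r41 (h.brk0 e) a b c d

theorem r52 (h : GH 4 β) (a b c d e : F) :
    β ⁅⁅⁅⁅a, b⁆, c⁆, d⁆, e⁆ + β ⁅⁅⁅⁅b, c⁆, a⁆, d⁆, e⁆ + β ⁅⁅⁅⁅c, a⁆, b⁆, d⁆, e⁆ = 0 :=
  r42 (h.brk0 e) a b c d

include hk

theorem r53 (h : GH 4 β) (a b c d e : F) :
    β ⁅⁅⁅⁅a, b⁆, c⁆, d⁆, e⁆ - β ⁅⁅⁅⁅a, b⁆, d⁆, c⁆, e⁆ = 0 := by
  have h1 := r43a (h.brk0 e) a b c d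
  rw [h1, hk]

theorem r54 (h : GH 4 β) (a b c d e : F) :
    β ⁅⁅⁅⁅a, b⁆, c⁆, d⁆, e⁆ - β ⁅⁅⁅⁅a, b⁆, c⁆, e⁆, d⁆ - β ⁅⁅⁅⁅d, e⁆, c⁆, a⁆, b⁆
      + β ⁅⁅⁅⁅d, e⁆, c⁆, b⁆, a⁆ = 0 := by
  have h1 := h.jac2 (by omega : 4 = 2 + 0 + 0 + 2) (g2 a b c) (gm_top d) (gm_top e)
  have h2 := h.jac2 (by omega : 4 = 2 + 0 + 0 + 2) (g2 d e c) (gm_top a) (gm_top b)
  have h3 := h.jacobi (by omega : 4 = 1 + 0 + 1 + 2) (g1 a b) (gm_top c) (g1 d e)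
  have h4 := h.sw (by omega : 4 = 0 + 1 + 1 + 2) (gm_top c) (g1 d e) (g1 a b)
  rw [hk] at h3
  linear_combination h1 - h2 + h3 - h4

end rels

theorem sep2 {β : F → ZMod 7} (hβ : GH 1 β) {w : F} (hw : w ∈ gm F 1)
    (h : ∀ s t : ℕ → ZMod 7, ∃ f : F → ZMod 7, GH 1 f ∧ f w = 0 ∧
      ∀ i j, f ⁅xx i, xx j⁆ = s i * t j - s j * t i) : β w = 0 := by
  obtain ⟨ι, hι, a, b, ω, hr⟩ := rep2 (K := ZMod 7) hw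
  have h1 := van2 a b ω (fun s t => by
    obtain ⟨f, hf, h0, hv⟩ := h s t
    rw [hr f hf] at h0
    simp only [hv] at h0
    exact h0) (fun i j => β ⁅xx i, xx j⁆)
  rw [hr β hβ]
  have h2 : ∀ j, ω j * E2 (fun i j => β ⁅xx i, xx j⁆) (a j) (b j) =
      2 * (ω j * β ⁅xx (a j), xx (b j)⁆) := by
    intro j
    simp only [E2]
    linear_combination (- ω j) * r21 hβ (xx (a j)) (xx (b j))
  rw [Finset.sum_congr rfl fun j _ => h2 j, ← Finset.mul_sum] at h1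
  have h8 : (8 : ZMod 7) = 1 := by decide
  linear_combination 4 * h1 - (∑ j, ω j * β ⁅xx (a j), xx (b j)⁆) * h8

theorem sep3 {β : F → ZMod 7} (hβ : GH 2 β) {w : F} (hw : w ∈ gm F 2)
    (h : ∀ s t : ℕ → ZMod 7, ∃ f : F → ZMod 7, GH 2 f ∧ f w = 0 ∧
      ∀ i j k, f ⁅⁅xx i, xx j⁆, xx k⁆ = (s i * t j - s j * t i) * t k) : β w = 0 := by
  obtain ⟨ι, hι, a, b, c, ω, hr⟩ := rep3 (K := ZMod 7) hw
  have h1 := van3 a b c ω (fun s t => by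
    obtain ⟨f, hf, h0, hv⟩ := h s t
    rw [hr f hf] at h0
    simp only [hv] at h0
    exact h0) (fun i j k => β ⁅⁅xx i, xx j⁆, xx k⁆)
  rw [hr β hβ]
  have h2 : ∀ j, ω j * E3 (fun i j k => β ⁅⁅xx i, xx j⁆, xx k⁆) (a j) (b j) (c j) =
      3 * (ω j * β ⁅⁅xx (a j), xx (b j)⁆, xx (c j)⁆) := by
    intro j
    rw [id3 (fun i j k => β ⁅⁅xx i, xx j⁆, xx k⁆) (fun a b c => r31 hβ _ _ _) (fun a b c => r32 hβ _ _ _)]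
    ring
  rw [Finset.sum_congr rfl fun j _ => h2 j, ← Finset.mul_sum] at h1
  have h8 : (15 : ZMod 7) = 1 := by decide
  linear_combination 5 * h1 - (∑ j, ω j * β ⁅⁅xx (a j), xx (b j)⁆, xx (c j)⁆) * h8

theorem sep4 {β : F → ZMod 7} (hβ : GH 3 β) {w : F} (hw : w ∈ gm F 3)
    (h : ∀ s t : ℕ → ZMod 7, ∃ f : F → ZMod 7, GH 3 f ∧ f w = 0 ∧
      ∀ i j k l, f ⁅⁅⁅xx i, xx j⁆, xx k⁆, xx l⁆ = (s i * t j - s j * t i) * t k * t l)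
    (h' : ∀ r s t : ℕ → ZMod 7, ∃ f : F → ZMod 7, GH 3 f ∧ f w = 0 ∧
      ∀ i j k l, f ⁅⁅⁅xx i, xx j⁆, xx k⁆, xx l⁆ = 2 * ((r i * t j - r j * t i) * t k * s l -
        (s i * t j - s j * t i) * t k * r l)) : β w = 0 := by
  obtain ⟨ι, hι, a, b, c, d, ω, hr⟩ := rep4 (K := ZMod 7) hw
  have h1 := van4a a b c d ω (fun s t => by
    obtain ⟨f, hf, h0, hv⟩ := h s t
    rw [hr f hf] at h0
    simp only [hv] at h0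
    exact h0) (fun i j k l => β ⁅⁅⁅xx i, xx j⁆, xx k⁆, xx l⁆)
  have h8 : (8 : ZMod 7) = 1 := by decide
  have h3 := van4b a b c d ω (fun r s t => by
    obtain ⟨f, hf, h0, hv⟩ := h' r s t
    rw [hr f hf] at h0
    simp only [hv] at h0
    have h5 := congrArg (fun x => 4 * x) h0
    simp only [mul_zero, Finset.mul_sum] at h5
    rw [← h5]
    refine Finset.sum_congr rfl fun j _ => ?_
    linear_combination (-(ω j * ((r (a j) * t (b j) - r (b j) * t (a j)) * t (c j) * s (d j) -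
        (s (a j) * t (b j) - s (b j) * t (a j)) * t (c j) * r (d j)))) * h8)
      (fun a b c d => β ⁅⁅⁅xx a, xx c⁆, xx b⁆, xx d⁆ - β ⁅⁅⁅xx a, xx c⁆, xx d⁆, xx b⁆)
  rw [hr β hβ]
  have h2 := congrArg₂ (fun x y => x - y) h1 h3
  simp only [← Finset.sum_sub_distrib, sub_zero, ← mul_sub] at h2
  rw [← h2]
  refine Finset.sum_congr rfl fun j _ => ?_
  rw [id4 (fun i j k l => β ⁅⁅⁅xx i, xx j⁆, xx k⁆, xx l⁆) (fun a b c d => r41 hβ _ _ _ _)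
    (fun a b c d => r42 hβ _ _ _ _) (fun a b c d => r43 hβ _ _ _ _)]
  linear_combination (-(ω j * β ⁅⁅⁅xx (a j), xx (b j)⁆, xx (c j)⁆, xx (d j)⁆)) * h8

theorem sep5 {β : F → ZMod 7} (hβ : GH 4 β)
    (hk : ∀ a b c d e : F, β ⁅⁅⁅a, b⁆, ⁅c, d⁆⁆, e⁆ = 0) {w : F} (hw : w ∈ gm F 4)
    (h : ∀ s t : ℕ → ZMod 7, ∃ f : F → ZMod 7, GH 4 f ∧ f w = 0 ∧
      ∀ i j k l m, f ⁅⁅⁅⁅xx i, xx j⁆, xx k⁆, xx l⁆, xx m⁆ =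
        2 * ((s i * t j - s j * t i) * t k * t l * s m)) : β w = 0 := by
  obtain ⟨ι, hι, a, b, c, d, e, ω, hr⟩ := rep5 (K := ZMod 7) hw
  have h8 : (8 : ZMod 7) = 1 := by decide
  have h40 : (120 : ZMod 7) = 1 := by decide
  have h1 := van5 a b c d e ω (fun s t => by
    obtain ⟨f, hf, h0, hv⟩ := h s t
    rw [hr f hf] at h0
    simp only [hv] at h0
    have h5 := congrArg (fun x => 4 * x) h0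
    simp only [mul_zero, Finset.mul_sum] at h5
    rw [← h5]
    refine Finset.sum_congr rfl fun j _ => ?_
    linear_combination (-(ω j * ((s (a j) * t (b j) - s (b j) * t (a j)) * t (c j) * t (d j) *
      s (e j)))) * h8)
      (fun a b c d e => 3 * β ⁅⁅⁅⁅xx a, xx c⁆, xx d⁆, xx e⁆, xx b⁆ +
        β ⁅⁅⁅⁅xx a, xx c⁆, xx d⁆, xx b⁆, xx e⁆)
  rw [hr β hβ]
  have h2 := congrArg (fun x => 3 * x) h1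
  simp only [mul_zero, Finset.mul_sum] at h2
  rw [← h2]
  refine Finset.sum_congr rfl fun j _ => ?_
  rw [id5 (fun i j k l m => β ⁅⁅⁅⁅xx i, xx j⁆, xx k⁆, xx l⁆, xx m⁆)
    (fun a b c d e => r51 hβ _ _ _ _ _) (fun a b c d e => r52 hβ _ _ _ _ _)
    (fun a b c d e => r53 hk hβ _ _ _ _ _) (fun a b c d e => r54 hk hβ _ _ _ _ _)]
  linear_combination (-(ω j * β ⁅⁅⁅⁅xx (a j), xx (b j)⁆, xx (c j)⁆, xx (d j)⁆, xx (e j)⁆)) * h40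

end Pool.Agent.R815.GR
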