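import Pool.Agent.R815.GR.Model

/-!
# Two-generator groups: the second derived group lies in the fifth term
-/

set_option autoImplicit false

open scoped commutatorElement

namespace Pool.Agent.R815.GR

section

variable {G : Type} [Group G]

/-- elements commuting with `v` modulo `N` -/
def Cm (N : Subgroup G) [hN : N.Normal] (v : G) : Subgroup G where
  carrier := {u | ⁅u, v⁆ ∈ N}
  one_mem' := by
    show ⁅1, v⁆ ∈ N
    rw [commutatorElement_one_left]
    exact one_mem _
  mul_mem' := by
    intro a b ha hb
    show ⁅a * b, v⁆ ∈ N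
    have e : ⁅a * b, v⁆ = (a * ⁅b, v⁆ * a⁻¹) * ⁅a, v⁆ := by
      simp only [commutatorElement_def]
      group
    rw [e]
    exact mul_mem (hN.conj_mem _ hb a) ha
  inv_mem' := by
    intro a ha
    show ⁅a⁻¹, v⁆ ∈ N
    have e : ⁅a⁻¹, v⁆ = a⁻¹ * ⁅a, v⁆⁻¹ * a⁻¹⁻¹ := by
      simp only [commutatorElement_def]
      group
    rw [e]
    exact hN.conj_mem _ (inv_mem ha) _

theorem mem_Cm {N : Subgroup G} [hN : N.Normal] {u v : G} : u ∈ Cm N v ↔ ⁅u, v⁆ ∈ N := Iff.rfl

theorem Cm_symm {N : Subgroup G} [hN : N.Normal] {u v : G} (h : u ∈ Cm N v) : v ∈ Cm N u := by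
  rw [mem_Cm] at *
  rw [← commutatorElement_inv]
  exact inv_mem h

end

/-- the commutator of the two generators and the third term -/
def LL : Subgroup F2 := Subgroup.closure ({⁅y0, y1⁆} ∪ (gm F2 2 : Set F2))

theorem LL_c : ⁅y0, y1⁆ ∈ LL := Subgroup.subset_closure (Or.inl rfl)

theorem LL_gm {u : F2} (hu : u ∈ gm F2 2) : u ∈ LL := Subgroup.subset_closure (Or.inr hu)

instance LL_normal : LL.Normal := by
  constructor
  intro n hn g
  have h : LL ≤ LL.comap (MulAut.conj g).toMonoidHom := by
    rw [LL, Subgroup.closure_le]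
    rintro x (hx | hx)
    · rw [Set.mem_singleton_iff] at hx
      subst hx
      show g * ⁅y0, y1⁆ * g⁻¹ ∈ LL
      have e : g * ⁅y0, y1⁆ * g⁻¹ = ⁅g, ⁅y0, y1⁆⁆ * ⁅y0, y1⁆ := by
        rw [commutatorElement_def g]
        group
      rw [e]
      exact mul_mem (LL_gm (gm_comm (gm_top g) (G1 _ _) (by omega))) LL_c
    · show g * x * g⁻¹ ∈ LL
      exact LL_gm (GH.conj_mem hx g)
  exact h hn

theorem F2_top {S : Subgroup F2} (h0 : y0 ∈ S) (h1 : y1 ∈ S) (u : F2) : u ∈ S := by
  induction u using FreeGroup.induction_on with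
  | C1 => exact one_mem _
  | of k =>
    fin_cases k
    · exact h0
    · exact h1
  | inv_of k h => exact inv_mem h
  | mul u v h1 h2 => exact mul_mem h1 h2

theorem gm1_le : gm F2 1 ≤ LL := by
  have a0 : ∀ x : F2, x ∈ Cm LL y0 := fun x => F2_top (by
    rw [mem_Cm, commutatorElement_self]; exact one_mem _) (by
    apply Cm_symm
    exact LL_c) x
  have a1 : ∀ x : F2, x ∈ Cm LL y1 := fun x => F2_top (by
    exact LL_c) (by
    rw [mem_Cm, commutatorElement_self]; exact one_mem _) x
  rw [gm_succ, Subgroup.commutator_le]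
  intro x _ y _
  exact Cm_symm (F2_top (Cm_symm (a0 x)) (Cm_symm (a1 x)) y)

theorem two_gen {u v : F2} (hu : u ∈ gm F2 1) (hv : v ∈ gm F2 1) : ⁅u, v⁆ ∈ gm F2 4 := by
  have hc : ∀ u ∈ gm F2 1, u ∈ Cm (gm F2 4) ⁅y0, y1⁆ := by
    intro u hu
    have h : LL ≤ Cm (gm F2 4) ⁅y0, y1⁆ := by
      rw [LL, Subgroup.closure_le]
      rintro x (hx | hx)
      · rw [Set.mem_singleton_iff] at hx
        subst hx
        show _ ∈ Cm (gm F2 4) ⁅y0, y1⁆
        rw [mem_Cm, commutatorElement_self]
        exact one_mem _
      · exact gm_comm (i := 2) (j := 1) (k := 4) hx (G1 y0 y1) (by omega)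
    exact h (gm1_le hu)
  have h : LL ≤ Cm (gm F2 4) u := by
    rw [LL, Subgroup.closure_le]
    rintro x (hx | hx)
    · rw [Set.mem_singleton_iff] at hx
      subst hx
      exact Cm_symm (hc u hu)
    · exact gm_comm (i := 2) (j := 1) (k := 4) hx hu (by omega)
  exact Cm_symm (h (gm1_le hv))

theorem der2_F2 : derivedSeries F2 2 ≤ gm F2 4 := by
  rw [derivedSeries_succ, Subgroup.commutator_le]
  intro u hu v hv
  have h1 : derivedSeries F2 1 = gm F2 1 := by
    rw [derivedSeries_succ, derivedSeries_zero, gm_succ]
    rfl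
  rw [h1] at hu hv
  exact two_gen hu hv

theorem der2_gen {G : Type} [Group G] : derivedSeries G 2 ≤ gm G 3 := by
  rw [derivedSeries_succ, Subgroup.commutator_le]
  intro u hu v hv
  have h1 : derivedSeries G 1 = gm G 1 := by
    rw [derivedSeries_succ, derivedSeries_zero, gm_succ]
    rfl
  rw [h1] at hu hv
  exact gm_comm hu hv (by omega)

/-- a word with zero exponent sums is in the commutator subgroup -/
theorem mem_gm1 {w : F} (h : ∀ θ : F →* F2, θ w ∈ gm F2 1) : w ∈ gm F 1 := by
  have hex : ∀ k : ℕ, (FreeGroup.lift (fun i => if i = k then Multiplicative.ofAdd (1 : ℤ) else 1) :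
      F →* Multiplicative ℤ) w = 1 := by
    intro k
    let θ : F →* F2 := FreeGroup.lift (fun i => if i = k then y0 else 1)
    let η : F2 →* Multiplicative ℤ := FreeGroup.lift (fun _ => Multiplicative.ofAdd (1 : ℤ))
    have e : (FreeGroup.lift (fun i => if i = k then Multiplicative.ofAdd (1 : ℤ) else 1) :
      F →* Multiplicative ℤ) = η.comp θ := by
      ext i
      simp only [FreeGroup.lift_apply_of, MonoidHom.comp_apply, θ]
      by_cases hi : i = k
      · simp [hi, η]
      · simp [hi]
    rw [e]
    have h1 := h θ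
    have h2 : gm F2 1 ≤ η.ker := by
      rw [gm_succ, Subgroup.commutator_le]
      intro x _ y _
      rw [MonoidHom.mem_ker, map_commutatorElement, commutatorElement_eq_one_iff_mul_comm]
      exact mul_comm _ _
    exact h2 h1
  have hA : (Abelianization.of w : Abelianization F) = 1 := by
    let e : F →* Multiplicative (ℕ →₀ ℤ) :=
      FreeGroup.lift (fun i => Multiplicative.ofAdd (Finsupp.single i 1))
    let s : (ℕ →₀ ℤ) →+ Additive (Abelianization F) :=
      Finsupp.liftAddHom (fun k => (zmultiplesHom (Additive (Abelianization F)))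
        (Additive.ofMul (Abelianization.of (xx k))))
    let S : Multiplicative (ℕ →₀ ℤ) →* Abelianization F :=
      { toFun := fun m => Additive.toMul (s (Multiplicative.toAdd m))
        map_one' := by simp
        map_mul' := by intro a b; simp }
    have hS : ∀ v : F, S (e v) = Abelianization.of v := by
      intro v
      have : S.comp e = Abelianization.of := by
        ext i
        show Additive.toMul (s (Multiplicative.toAdd (e (FreeGroup.of i)))) = _
        simp [e, s]
      exact DFunLike.congr_fun this v
    have h0 : e w = 1 := by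
      apply Multiplicative.toAdd.injective
      ext k
      have key : ∀ v : F, (Multiplicative.toAdd (e v)) k =
          Multiplicative.toAdd ((FreeGroup.lift
          (fun i => if i = k then Multiplicative.ofAdd (1 : ℤ) else 1) :
          F →* Multiplicative ℤ) v) := by
        intro v
        induction v using FreeGroup.induction_on with
        | C1 => simp
        | of i =>
          simp only [e, FreeGroup.lift_apply_of]
          by_cases hi : i = k
          · simp [hi]
          · simp [hi]
        | inv_of i h =>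
          have e1 := map_inv (FreeGroup.lift (fun i => if i = k then
            Multiplicative.ofAdd (1 : ℤ) else 1) : F →* Multiplicative ℤ) (FreeGroup.of i)
          rw [map_inv e, e1, toAdd_inv, toAdd_inv, ← h]
          rfl
        | mul u v hu hv =>
          have e1 := map_mul (FreeGroup.lift (fun i => if i = k then
            Multiplicative.ofAdd (1 : ℤ) else 1) : F →* Multiplicative ℤ) u v
          rw [map_mul e, e1, toAdd_mul, toAdd_mul, ← hu, ← hv]
          rfl
      rw [key w, hex k]
      simp
    rw [← hS w, h0, map_one]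
  have h4 : w ∈ commutator F := by
    rw [← Abelianization.ker_of]
    exact hA
  rw [gm_succ]
  exact h4

end Pool.Agent.R815.GR
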